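import Pool.Agent.Helper33_XQ.Unx
import Pool.Agent.Helper69_AEU.Tools
import Pool.Agent.Helper69_AEU.Lam
import Pool.Agent.Helper69_AEU.Per

/-!
Squad XQ (MP_5b0138_an), Part G: sliding the end of a diagonal, placements of short bodies.
-/

set_option autoImplicit false

namespace Pool.Agent.XQ.H33

open MeasureTheory Complex Filter Topology Pool.Agent.H62T
open Pool.Agent.H16F (Sublin)
open Pool.Agent.AEU
open Pool.Agent.AEU.H69 (mem_touch mixS hul)

theorem mv_inv (g : Iso2) (s : HP) : mv g (mv g⁻¹ s) = s := H69.mv_inv H72.act g s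

theorem mv_inv' (g : Iso2) (s : HP) : mv g⁻¹ (mv g s) = s := H69.mv_inv' H72.act g s

theorem mb_inv' (g : Iso2) (h : ℂ → ℝ) : mb g⁻¹ (mb g h) = h := H69.mb_inv' H72.act g h

theorem mb_inv (g : Iso2) (h : ℂ → ℝ) : mb g (mb g⁻¹ h) = h := by
  have := mb_inv' g⁻¹ h
  rwa [inv_inv] at this

theorem mv_injective (g : Iso2) : Function.Injective (mv g) := H69.mv_inj H72.act g

theorem lam_mb (g : Iso2) {h : ℂ → ℝ} (hh : Sublin h) : lam (mb g h) = lam h :=
  H69.lam_mb g hh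

theorem sub_mb (g : Iso2) {h : ℂ → ℝ} (hh : Sublin h) : Sublin (mb g h) :=
  H69.sub_mb g hh

/-- a moved body touches the moved sides -/
theorem touch_mv {X Y : Finset HP} {g : Iso2} {h : ℂ → ℝ} {s : HP} (hs : s ∈ touch X h)
    (hY : mv g s ∈ Y) : mv g s ∈ touch Y (mb g h) := by
  refine mem_touch.2 ⟨hY, ?_⟩
  have h1 := H69.mb_mv H72.act g h s
  rw [(mem_touch.1 hs).2] at h1
  linarith

theorem card_image_mv (g : Iso2) (S : Finset HP) : (S.image (mv g)).card = S.card :=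
  Finset.card_image_of_injective _ (mv_injective g)

/-- `Ac` is positively homogeneous -/
theorem ac_smul {e : ℂ} {a b : HP} {c : ℝ} (hc : 0 < c) : Ac ((c : ℂ) * e) a b ↔ Ac e a b := by
  unfold Ac
  rw [H69.ip_smul_left, H69.ip_smul_left]
  constructor
  · intro h
    have h1 : c * (ip a.1 b.1 * ip e a.1 - ip e b.1) > 0 := by linarith
    have h2 := (mul_pos_iff_of_pos_left hc).1 h1
    linarith
  · intro h
    have h1 : 0 < c * (ip a.1 b.1 * ip e a.1 - ip e b.1) := mul_pos hc (by linarith)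
    linarith

theorem ac_double {p q : ℂ} (hpq : q ≠ p) {a b : HP} :
    Ac ((q - p) / (‖q - p‖ : ℂ) + (q - p) / (‖q - p‖ : ℂ)) a b ↔ Ac (q - p) a b := by
  have hn : 0 < ‖q - p‖ := norm_pos_iff.2 (sub_ne_zero.2 hpq)
  have e : (q - p) / (‖q - p‖ : ℂ) + (q - p) / (‖q - p‖ : ℂ)
      = ((2 / ‖q - p‖ : ℝ) : ℂ) * (q - p) := by
    have : (‖q - p‖ : ℂ) ≠ 0 := by exact_mod_cast hn.ne'
    push_cast
    field_simp
    ring
  rw [e]
  exact ac_smul (by positivity)

theorem ne_of_vx (hvxx : VxxStatement) {Q : Finset HP} (hQ : Pg Q) {a b c d : HP} {p q : ℂ}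
    (ha : VxOf Q a b p) (hc : VxOf Q c d q) (hne : Ne4 a b c d) : q ≠ p := by
  rintro rfl
  rcases (hvxx Q hQ).1 a b q ha c hc.mem₁ hc.on₁ with h | h
  · exact hne.2.1 h.symm
  · exact hne.2.2.2.1 h.symm

theorem ac_or (hvxx : VxxStatement) (hslx : SlxStatement) {Q : Finset HP} (hQ : Pg Q)
    {a b c d : HP} {p q : ℂ} (ha : VxOf Q a b p) (hc : VxOf Q c d q) (hne : Ne4 a b c d) :
    Ac (q - p) a b ∨ Ac (q - p) b a := by
  have hpq := ne_of_vx hvxx hQ ha hc hne
  have h := (hslx Q hQ a b p ha q hc.cl q hc.cl hpq hpq).1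
  rwa [ac_double hpq, ac_double hpq] at h

/-- the segment from a vertex to a slid vertex -/
theorem slide (hvxx : VxxStatement) (hslx : SlxStatement) {Q : Finset HP} (hQ : Pg Q)
    {a b c d : HP} {p q : ℂ} (ha : VxOf Q a b p) (hc : VxOf Q c d q) (hne : Ne4 a b c d)
    (hac : Ac (q - p) a b) : ∃ h', Special Q h' ∧ In q h' ∧ ({a, c, d} : Finset HP) ⊆ touch Q h' ∧
      lam h' < 2 * ‖p - q‖ := by
  have hpq := ne_of_vx hvxx hQ ha hc hne
  obtain ⟨p', hp', -, hap', hlt⟩ := (hslx Q hQ a b p ha q hc.cl q hc.cl hpq hpq).2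
    ((ac_double hpq).2 hac)
  have hmx := (mixS Q).2.2 1 ![p', q] (by
    intro i
    fin_cases i
    · exact hp'
    · exact hc.cl)
  have hH := hul 1 ![p', q]
  have hin : In q (hf ![p', q]) := hH.2.1 1
  have hsub : ({a, c, d} : Finset HP) ⊆ touch Q (hf ![p', q]) := by
    intro s hs
    rw [Finset.mem_insert, Finset.mem_insert, Finset.mem_singleton] at hs
    rw [hmx.2]
    rcases hs with rfl | rfl | rfl
    · exact ⟨ha.mem₁, 0, hap'⟩
    · exact ⟨hc.mem₁, 1, hc.on₁⟩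
    · exact ⟨hc.mem₂, 1, hc.on₂⟩
  refine ⟨hf ![p', q], ⟨hH.1, hmx.1, ?_, Or.inl ⟨q, ⟨c, d, hc⟩, hin⟩⟩, hin, hsub, ?_⟩
  · have h3 : ({a, c, d} : Finset HP).card = 3 :=
      Finset.card_eq_three.2 ⟨a, c, d, hne.2.1, hne.2.2.1, hne.2.2.2.2.2, rfl⟩
    rw [← h3]
    exact Finset.card_le_card hsub
  · rw [H69.lam2]
    have e1 : ‖q - p'‖ = ‖p' - q‖ := norm_sub_rev _ _
    have e2 : ‖q - p‖ = ‖p - q‖ := norm_sub_rev _ _
    rw [e1, e2] at hlt
    linarith

/-- the diagonal -/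
theorem sh3_data (hvxx : VxxStatement) {Q : Finset HP} (hQ : Pg Q) {h : ℂ → ℝ} {i j k l : HP}
    {v w : ℂ} (hs : Sh3 Q h i j k l v w) : Sublin h ∧ Fits Q h ∧ touch Q h = {i, j, k, l} ∧
      In v h ∧ In w h ∧ lam h = 2 * ‖v - w‖ := by
  have hmx := (mixS Q).2.2 1 ![v, w] (by
    intro n
    fin_cases n
    · exact hs.vi.cl
    · exact hs.wk.cl)
  have hH := hul 1 ![v, w]
  rw [hs.body]
  refine ⟨hH.1, hmx.1, ?_, hH.2.1 0, hH.2.1 1, H69.lam2 _ _⟩
  ext s
  rw [hmx.2]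
  simp only [Finset.mem_insert, Finset.mem_singleton]
  constructor
  · rintro ⟨hsQ, n, hn⟩
    fin_cases n
    · rcases (hvxx Q hQ).1 i j v hs.vi s hsQ hn with h | h
      · exact Or.inl h
      · exact Or.inr (Or.inl h)
    · rcases (hvxx Q hQ).1 k l w hs.wk s hsQ hn with h | h
      · exact Or.inr (Or.inr (Or.inl h))
      · exact Or.inr (Or.inr (Or.inr h))
  · rintro (rfl | rfl | rfl | rfl)
    · exact ⟨hs.vi.mem₁, 0, hs.vi.on₁⟩
    · exact ⟨hs.vi.mem₂, 0, hs.vi.on₂⟩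
    · exact ⟨hs.wk.mem₁, 1, hs.wk.on₁⟩
    · exact ⟨hs.wk.mem₂, 1, hs.wk.on₂⟩

/-- a short body in the right place is matched -/
theorem wpm {X Y : Finset HP} {L : ℝ} (E : Env X Y L) {g : Iso2} {S : Finset HP} {m : ℂ → ℝ}
    (W : WP X Y g S m) (hl : lam m < L) : Mat X Y g m := by
  refine ⟨W.fits, W.fits', ?_, ?_⟩
  · by_cases h4 : 4 ≤ (touch X m).card
    · have hsp : Special X m := ⟨W.sub, W.fits, by omega, Or.inr h4⟩
      obtain ⟨g', hg'⟩ := E.all m hsp hl
      have : g' = g := E.uq g' g S m ⟨W.card, W.sub, W.fits, hg'.fits', W.tch,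
        fun s hs => hg'.mem s (W.tch hs)⟩ W hl
      rw [← this]
      exact hg'.mem
    · have h3 : S = touch X m := Finset.eq_of_subset_of_card_le W.tch (by have := W.card; omega)
      intro s hs
      rw [← h3] at hs
      exact W.mem s hs
  · have hsub' : Sublin (mb g m) := sub_mb g W.sub
    have hl' : lam (mb g m) < L := by rw [lam_mb g W.sub]; exact hl
    have him : S.image (mv g) ⊆ touch Y (mb g m) := by
      intro s hs
      obtain ⟨t, ht, rfl⟩ := Finset.mem_image.1 hs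
      exact touch_mv (W.tch ht) (W.mem t ht)
    have hc : (S.image (mv g)).card = 3 := by rw [card_image_mv, W.card]
    have hback : ∀ s ∈ S.image (mv g), mv g⁻¹ s ∈ X := by
      intro s hs
      obtain ⟨t, ht, rfl⟩ := Finset.mem_image.1 hs
      rw [mv_inv']
      exact (mem_touch.1 (W.tch ht)).1
    by_cases h4 : 4 ≤ (touch Y (mb g m)).card
    · have hsp : Special Y (mb g m) := ⟨hsub', W.fits', by omega, Or.inr h4⟩
      obtain ⟨g', hg'⟩ := E.all' _ hsp hl'
      have : g' = g⁻¹ := E.uq' g' g⁻¹ (S.image (mv g)) (mb g m) ⟨hc, hsub', W.fits', hg'.fits',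
        him, fun s hs => hg'.mem s (him hs)⟩ ⟨hc, hsub', W.fits', by rw [mb_inv']; exact W.fits,
        him, hback⟩ hl'
      rw [← this]
      exact hg'.mem
    · have h3 : S.image (mv g) = touch Y (mb g m) :=
        Finset.eq_of_subset_of_card_le him (by omega)
      intro s hs
      rw [← h3] at hs
      exact hback s hs

end Pool.Agent.XQ.H33
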