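import Pool.Agent.Helper33_XQ.Gd
import Pool.Agent.Helper44_AEU.Uni

/-!
Squad XQ (MP_5b0138_an), Part D, module EQN: the equation for the new items.
-/

set_option autoImplicit false

namespace Pool.Agent.XQ.H33

open MeasureTheory Complex Filter Topology ProbabilityTheory Pool.Agent.H16Iso Pool.Agent.H62T
open Pool.Agent.H16F (Sublin ind)
open Pool.Agent.AEU
open Pool.Agent.H62T.H9 (AM)
open Pool.Agent.AEU.H35 (momS Adm sublin_ae sublin_scale lam_smul abs_ind_le Tr measurable_Zs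
  measurable_indZs abs_Zs_le meas_sq adm_EZs evL_of_Zs Zs_small Lap_sum Lap_add Lap_sub Lap_congr
  Lap_zero small_congr)

/-! ### Vanishing for small loops -/

/-- the function vanishes for small loops -/
def Vn (U : Finset ℂ) (f : ℝ → Sp → ℝ) : Prop :=
  ∃ m : ℝ, 0 < m ∧ ∀ t, 0 < t → ∀ᵐ ω ∂PP, (∀ u ∈ U, |sh t ω u| < m) → f t ω = 0

namespace Vn

variable {U : Finset ℂ} {f g : ℝ → Sp → ℝ}

lemma zero (U : Finset ℂ) : Vn U fun _ _ => 0 :=
  ⟨1, one_pos, fun _ _ => Eventually.of_forall fun _ _ => rfl⟩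

lemma add (hf : Vn U f) (hg : Vn U g) : Vn U fun t ω => f t ω + g t ω := by
  obtain ⟨m, hm, h1⟩ := hf
  obtain ⟨m', hm', h2⟩ := hg
  refine ⟨min m m', lt_min hm hm', fun t ht => ?_⟩
  filter_upwards [h1 t ht, h2 t ht] with ω k1 k2 hu
  rw [k1 fun u hu' => (hu u hu').trans_le (min_le_left _ _),
    k2 fun u hu' => (hu u hu').trans_le (min_le_right _ _), add_zero]

lemma mul_left (hf : Vn U f) (e : ℝ → Sp → ℝ) : Vn U fun t ω => e t ω * f t ω := by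
  obtain ⟨m, hm, h1⟩ := hf
  refine ⟨m, hm, fun t ht => ?_⟩
  filter_upwards [h1 t ht] with ω k1 hu
  rw [k1 hu, mul_zero]

lemma sub (hf : Vn U f) (hg : Vn U g) : Vn U fun t ω => f t ω - g t ω := by
  have := hf.add (hg.mul_left fun _ _ => -1)
  simpa [sub_eq_add_neg] using this

lemma sum {ι : Type} (T : Finset ι) (F : ι → ℝ → Sp → ℝ) (hF : ∀ i ∈ T, Vn U (F i)) :
    Vn U fun t ω => ∑ i ∈ T, F i t ω := by
  classical
  induction T using Finset.induction_on with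
  | empty => simpa using Vn.zero U
  | insert a T ha ih =>
    have h1 := (hF a (Finset.mem_insert_self _ _)).add
      (ih fun i hi => hF i (Finset.mem_insert_of_mem hi))
    simpa only [Finset.sum_insert ha] using h1

end Vn

/-! ### The pieces -/

lemma sz_le (S : Finset HP) (U : Finset ℂ) (hS : ∀ s ∈ S, s.1 ∈ U) (h : ℂ → ℝ) :
    (1 + ∑ s ∈ S, |h s.1|) ^ 2 ≤ ((S.card : ℝ) + 1) ^ 2 * szU U h := by
  unfold szU
  rw [← mul_pow]
  have h0 : 0 ≤ ∑ u ∈ U, |h u| := Finset.sum_nonneg fun i _ => abs_nonneg _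
  have h1 : ∑ s ∈ S, |h s.1| ≤ S.card * ∑ u ∈ U, |h u| := by
    rw [← nsmul_eq_mul]
    refine Finset.sum_le_card_nsmul S _ _ fun s hs => ?_
    exact Finset.single_le_sum (f := fun u => |h u|) (fun i _ => abs_nonneg _) (hS s hs)
  have h2 : 0 ≤ ∑ s ∈ S, |h s.1| := Finset.sum_nonneg fun i _ => abs_nonneg _
  have h3 : (0 : ℝ) ≤ S.card := Nat.cast_nonneg _
  refine pow_le_pow_left₀ (by positivity) ?_ 2
  nlinarith

lemma gd_of_bound {S : Finset HP} {U : Finset ℂ} (hS : ∀ s ∈ S, s.1 ∈ U) {F : (ℂ → ℝ) → ℝ}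
    (hm : Measurable fun p : ℝ × Sp => F (sh p.1 p.2)) {C : ℝ}
    (hb : ∀ h : ℂ → ℝ, |F h| ≤ C * (1 + ∑ s ∈ S, |h s.1|) ^ 2) :
    Gd U fun t ω => F (sh t ω) := by
  refine ⟨hm, |C| * ((S.card : ℝ) + 1) ^ 2, by positivity, fun t ω => ?_⟩
  calc |F (sh t ω)| ≤ C * (1 + ∑ s ∈ S, |sh t ω s.1|) ^ 2 := hb _
    _ ≤ |C| * (1 + ∑ s ∈ S, |sh t ω s.1|) ^ 2 :=
        mul_le_mul_of_nonneg_right (le_abs_self C) (sq_nonneg _)
    _ ≤ |C| * (((S.card : ℝ) + 1) ^ 2 * szU U (sh t ω)) :=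
        mul_le_mul_of_nonneg_left (sz_le S U hS _) (abs_nonneg _)
    _ = _ := by ring

lemma gd_Zs {S : Finset HP} {U : Finset ℂ} (hS : ∀ s ∈ S, s.1 ∈ U) :
    Gd U fun t ω => Zs S (sh t ω) := by
  obtain ⟨C, -, hC⟩ := abs_Zs_le S
  exact gd_of_bound hS (F := fun h => Zs S h)
    (measurable_Zs S (fun (p : ℝ × Sp) u => Real.sqrt p.1 * hs p.2 u) meas_sq) hC

lemma gd_ind {X S : Finset HP} {U : Finset ℂ} (hT : Tr S) (hSX : S ⊆ X)
    (hS : ∀ s ∈ S, s.1 ∈ U) : Gd U fun t ω => ind (Ev X S (sh t ω)) * Zs S (sh t ω) := by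
  obtain ⟨C, -, hC⟩ := abs_Zs_le S
  refine gd_of_bound hS (F := fun h => ind (Ev X S h) * Zs S h)
    (measurable_indZs hT hSX (fun (p : ℝ × Sp) u => Real.sqrt p.1 * hs p.2 u) meas_sq)
    (C := C) fun h => ?_
  rw [abs_mul]
  calc |ind (Ev X S h)| * |Zs S h| ≤ 1 * |Zs S h| :=
        mul_le_mul_of_nonneg_right (abs_ind_le _) (abs_nonneg _)
    _ ≤ _ := by rw [one_mul]; exact hC h

lemma vn_Zs {S : Finset HP} {U : Finset ℂ} (hS : ∀ s ∈ S, s.1 ∈ U) :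
    Vn U fun t ω => Zs S (sh t ω) := by
  obtain ⟨m, hm, hM⟩ := Zs_small S
  exact ⟨m, hm, fun t _ => Eventually.of_forall fun ω hu => hM _ fun s hs => hu _ (hS s hs)⟩

lemma Ar_nonneg (A B : Finset HP) (h : ℂ → ℝ) : 0 ≤ XQ.Ar A B h := ENNReal.toReal_nonneg

/-- data of a torn quadruple -/
structure Tn (F : Finset HP) (c : HP → ℝ) (L : ℝ) : Prop where
  card : F.card = 4
  unit : ∀ s ∈ F, ‖s.1‖ = 1
  np : Np F
  ne : ∀ s ∈ F, c s ≠ 0
  dep : ∑ s ∈ F, ((c s : ℝ) : ℂ) * s.1 = 0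
  val : ∑ s ∈ F, c s * s.2 = L

lemma tn_of {X F : Finset HP} {K : ℂ → ℝ} {L : ℝ} {c : HP → ℝ} (hX : Pg X) (hF : F ⊆ X)
    (hT : TornC X F K L c) : Tn F c L :=
  ⟨hT.card, fun s hs => hX.unit s (hF hs), hT.np, hT.ne, hT.dep, hT.val⟩

lemma gd_Ar (hmsx : MsxStatement) {F : Finset HP} {c : HP → ℝ} {L : ℝ} (hL : 0 < L)
    (hT : Tn F c L) {U : Finset ℂ} (hF : ∀ s ∈ F, s.1 ∈ U) :
    Gd U (fun t ω => XQ.Ar (Mp F c) (Mm F c) (sh t ω)) ∧
      Vn U (fun t ω => XQ.Ar (Mp F c) (Mm F c) (sh t ω)) := by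
  obtain ⟨hm, C, hC⟩ := hmsx.2 F c hT.card hT.unit hT.np hT.ne hT.dep (by rw [hT.val]; exact hL)
  constructor
  · refine gd_of_bound hF (F := fun h => XQ.Ar (Mp F c) (Mm F c) h) hm (C := C) fun h => ?_
    rw [abs_of_nonneg (Ar_nonneg _ _ _)]
    exact (hC h).1
  · have hpos : 0 < 1 + ∑ s ∈ F, |c s| := by
      have : 0 ≤ ∑ s ∈ F, |c s| := Finset.sum_nonneg fun i _ => abs_nonneg _
      linarith
    refine ⟨L / (1 + ∑ s ∈ F, |c s|), by positivity, fun t _ => Eventually.of_forall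
      fun ω hu => ?_⟩
    by_contra hne
    have h1 := (hC (sh t ω)).2 hne
    rw [hT.val] at h1
    have h2 : ∑ s ∈ F, c s * sh t ω s.1 ≤ ∑ s ∈ F, |c s| * (L / (1 + ∑ s ∈ F, |c s|)) := by
      refine Finset.sum_le_sum fun s hs => ?_
      calc c s * sh t ω s.1 ≤ |c s * sh t ω s.1| := le_abs_self _
        _ = |c s| * |sh t ω s.1| := abs_mul _ _
        _ ≤ _ := mul_le_mul_of_nonneg_left (hu _ (hF s hs)).le (abs_nonneg _)
    rw [← Finset.sum_mul] at h2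
    have h3 : (∑ s ∈ F, |c s|) * (L / (1 + ∑ s ∈ F, |c s|)) ≤ L := by
      rw [mul_div_assoc', div_le_iff₀ hpos]
      nlinarith [Finset.sum_nonneg fun i (_ : i ∈ F) => abs_nonneg (c i)]
    linarith

lemma sublin_sh {ω : Sp} (h : Sublin (hs ω)) (t : ℝ) : Sublin (sh t ω) := sublin_scale h t

lemma lam_sh (t : ℝ) (ω : Sp) : lam (sh t ω) = Real.sqrt t * lam (hs ω) := lam_smul _ _

lemma gd_R (hmsx : MsxStatement) {X : Finset HP} {q : (ℂ → ℝ) → ℝ} (hX : Pg X) (hq : Quad X q)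
    {U : Finset ℂ} (hU : ∀ s ∈ X, s.1 ∈ U) :
    Gd U (fun t ω => VX X (sh t ω) - q (sh t ω)) ∧
      Vn U (fun t ω => VX X (sh t ω) - q (sh t ω)) := by
  obtain ⟨h1, h2, C, hC⟩ := hmsx.1 X q hX hq
  constructor
  · refine gd_of_bound hU (F := fun h => VX X h - q h) (h1.sub h2) (C := C) fun h => ?_
    refine (abs_sub _ _).trans (hC h)
  · obtain ⟨r, hr, hq'⟩ := hq.small
    refine ⟨r, hr, fun t _ => ?_⟩
    filter_upwards [sublin_ae] with ω hω hu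
    rw [hq' (sh t ω) (sublin_sh hω t) fun s hs => (hu _ (hU s hs)).le, sub_self]

/-! ### Lap -/

lemma Lap_const_mul (f : ℝ → ℝ) (c κ : ℝ) : Lap (fun t => c * f t) κ = c * Lap f κ := by
  unfold Lap
  rw [← integral_const_mul]
  congr 1
  funext t
  ring

/-! ### Relaxed polygons -/

lemma sub_rlx {X : Finset HP} {T : Finset (Finset HP)} {c : Finset HP → HP → ℝ} {S : Finset HP}
    (h : S ⊆ X) : S ⊆ rlx X T c S := by
  classical
  intro s hs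
  unfold rlx er
  rw [Finset.mem_sdiff, Finset.mem_filter]
  exact ⟨h hs, fun hc => hc.2.1 hs⟩

/-- the terms where nothing is in the way -/
lemma ind_loc {X S : Finset HP} (hT : Tr S) {h : ℂ → ℝ} (hev : Ev X S h ↔ EvL S h) :
    ind (Ev X S h) * Zs S h = Zs S h := by
  by_cases hz : Zs S h = 0
  · rw [hz, mul_zero]
  · rw [H16F.H10.ind_pos (hev.2 (evL_of_Zs hT hz)), one_mul]

/-! ### No ties for the moved loops -/

lemma noTie_mb {P : Finset HP} (hnt : ∀ᵐ ω ∂PP, NoTie P (hs ω)) (g : Iso2) :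
    ∀ᵐ ω ∂PP, ∀ t, 0 < t → NoTie P (mb g (sh t ω)) := by
  obtain ⟨G, hG, hGω⟩ := H35.law_iso g.linearIsometryEquiv.symm
  have h1 : ∀ᵐ ω ∂PP, NoTie P (hs (G ω)) := hG.quasiMeasurePreserving.ae hnt
  filter_upwards [h1] with ω hω t ht σ x hσ T hT hc
  obtain ⟨s, hs', hne⟩ := hω (σ * Real.sqrt t) (x + (σ : ℂ) * g 0)
    (mul_pos hσ (Real.sqrt_pos.2 ht)) T hT hc
  refine ⟨s, hs', fun he => hne ?_⟩
  rw [hGω, H69.ip_add_right, H69.ip_smul_right]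
  unfold mb sh at he
  linarith

lemma noTie_sh {P : Finset HP} (hnt : ∀ᵐ ω ∂PP, NoTie P (hs ω)) :
    ∀ᵐ ω ∂PP, ∀ t, 0 < t → NoTie P (sh t ω) := by
  filter_upwards [hnt] with ω hω t ht σ x hσ T hT hc
  obtain ⟨s, hs', hne⟩ := hω (σ * Real.sqrt t) x (mul_pos hσ (Real.sqrt_pos.2 ht)) T hT hc
  refine ⟨s, hs', fun he => hne ?_⟩
  unfold sh at he
  linarith

/-! ### One polygon -/

/-- sum of the expected contributions of the new items -/
noncomputable def Gn1 (N T : Finset (Finset HP)) (c : Finset HP → HP → ℝ) (t : ℝ) : ℝ :=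
  ∑ S ∈ N, EZs S t + ∑ F ∈ T, (-1) ^ (Mm F (c F)).card * EAr (Mp F (c F)) (Mm F (c F)) t

/-- the same before taking the expectation -/
noncomputable def Gn0 (N T : Finset (Finset HP)) (c : Finset HP → HP → ℝ) (t : ℝ) (ω : Sp) : ℝ :=
  ∑ S ∈ N, Zs S (sh t ω)
    + ∑ F ∈ T, (-1) ^ (Mm F (c F)).card * XQ.Ar (Mp F (c F)) (Mm F (c F)) (sh t ω)

/-- the assumptions for one polygon -/
structure One (X : Finset HP) (L : ℝ) (M N T : Finset (Finset HP)) (c : Finset HP → HP → ℝ)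
    (U : Finset ℂ) : Prop where
  L0 : 0 < L
  pg : Pg X
  mem : ∀ s ∈ X, s.1 ∈ U
  unit : ∀ u ∈ U, ‖u‖ = 1
  sM : ∀ S ∈ M, S ⊆ X ∧ Tr S
  sN : ∀ S ∈ N, S ⊆ X ∧ Tr S
  sT : ∀ F ∈ T, F ⊆ X ∧ Tn F (c F) L
  dis : Disjoint M N

lemma one_of {X : Finset HP} {L δ : ℝ} {M N T : Finset (Finset HP)} {c : Finset HP → HP → ℝ}
    {K : Finset HP → ℂ → ℝ} {U : Finset ℂ} (hL : 0 < L) (hX : Pg X) (hp : Part X L δ M N T c K)
    (hU : ∀ s ∈ X, s.1 ∈ U) (hu : ∀ u ∈ U, ‖u‖ = 1) : One X L M N T c U := by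
  refine ⟨hL, hX, hU, hu, fun S hS => ?_, fun S hS => ?_, fun F hF => ?_, hp.dMN⟩
  · have h := Finset.mem_powersetCard.1 (hp.sM hS)
    exact ⟨h.1, h.2, fun s hs => hX.unit s (h.1 hs), hp.nM S hS⟩
  · have h := Finset.mem_powersetCard.1 (hp.sN hS)
    exact ⟨h.1, h.2, fun s hs => hX.unit s (h.1 hs), hp.nN S hS⟩
  · exact ⟨(hp.torn F hF).1, tn_of hX (hp.torn F hF).1 (hp.torn F hF).2⟩

section one

variable {X : Finset HP} {L : ℝ} {M N T : Finset (Finset HP)} {c : Finset HP → HP → ℝ}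
  {U : Finset ℂ}

lemma One.gd0 (hmsx : MsxStatement) (O : One X L M N T c U) : Gd U (Gn0 N T c) := by
  refine Gd.add (Gd.sum N _ fun S hS => gd_Zs fun s hs => O.mem s ((O.sN S hS).1 hs))
    (Gd.sum T _ fun F hF => Gd.const_mul
      (gd_Ar hmsx O.L0 (O.sT F hF).2 fun s hs => O.mem s ((O.sT F hF).1 hs)).1 _)

lemma One.int0 (hmsx : MsxStatement) (O : One X L M N T c U) (t : ℝ) :
    ∫ ω, Gn0 N T c t ω ∂PP = Gn1 N T c t := by
  have h1 : ∀ S ∈ N, Integrable (fun ω => Zs S (sh t ω)) PP := fun S hS =>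
    (gd_Zs (U := U) fun s hs => O.mem s ((O.sN S hS).1 hs)).integrable t
  have h2 : ∀ F ∈ T, Integrable (fun ω => (-1 : ℝ) ^ (Mm F (c F)).card *
      XQ.Ar (Mp F (c F)) (Mm F (c F)) (sh t ω)) PP := fun F hF =>
    (Gd.const_mul
      (gd_Ar hmsx O.L0 (O.sT F hF).2 fun s hs => O.mem s ((O.sT F hF).1 hs)).1 _).integrable t
  unfold Gn0 Gn1
  rw [integral_add (integrable_finsetSum _ h1) (integrable_finsetSum _ h2),
    integral_finsetSum _ h1, integral_finsetSum _ h2]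
  congr 1
  refine Finset.sum_congr rfl fun F _ => ?_
  rw [integral_const_mul]
  rfl

lemma One.admAr (hmsx : MsxStatement) (O : One X L M N T c U) {F : Finset HP} (hF : F ∈ T) :
    Adm (EAr (Mp F (c F)) (Mm F (c F))) := by
  obtain ⟨h1, m, hm, h2⟩ := gd_Ar hmsx O.L0 (O.sT F hF).2 (U := U)
    fun s hs => O.mem s ((O.sT F hF).1 hs)
  exact h1.adm O.unit hm h2

lemma One.adm1 (hmsx : MsxStatement) (O : One X L M N T c U) : Adm (Gn1 N T c) :=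
  (Adm.sum N _ fun S hS => adm_EZs (O.sN S hS).2).add
    (Adm.sum T _ fun F hF => (O.admAr hmsx hF).const_mul _)

lemma One.lap1 (hmsx : MsxStatement) (O : One X L M N T c U) {κ : ℝ} (hκ : 0 < κ) :
    Lap (Gn1 N T c) κ = ∑ S ∈ N, Lap (EZs S) κ
      + ∑ F ∈ T, (-1) ^ (Mm F (c F)).card * Lap (EAr (Mp F (c F)) (Mm F (c F))) κ := by
  have h1 : ∀ S ∈ N, Adm (EZs S) := fun S hS => adm_EZs (O.sN S hS).2
  have h2 : ∀ F ∈ T, Adm (fun t => (-1 : ℝ) ^ (Mm F (c F)).card *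
      EAr (Mp F (c F)) (Mm F (c F)) t) := fun F hF => (O.admAr hmsx hF).const_mul _
  have e : Gn1 N T c = fun t => (fun t => ∑ S ∈ N, EZs S t) t
      + (fun t => ∑ F ∈ T, (-1 : ℝ) ^ (Mm F (c F)).card * EAr (Mp F (c F)) (Mm F (c F)) t) t := rfl
  rw [e, Lap_add (Adm.sum N _ h1) (Adm.sum T _ h2) hκ, Lap_sum N _ h1 hκ, Lap_sum T _ h2 hκ]
  congr 1
  exact Finset.sum_congr rfl fun _ _ => Lap_const_mul _ _ _

lemma One.gdDX (hmsx : MsxStatement) (O : One X L M N T c U) :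
    Gd U (fun t ω => DX X T c (M ∪ N) (sh t ω)) ∧ Vn U (fun t ω => DX X T c (M ∪ N) (sh t ω)) := by
  have h0 : ∀ S ∈ M ∪ N, S ⊆ X ∧ Tr S := fun S hS =>
    (Finset.mem_union.1 hS).elim (O.sM S) (O.sN S)
  constructor
  · exact Gd.add (Gd.sum (M ∪ N) (fun S t ω => ind (Ev (rlx X T c S) S (sh t ω)) * Zs S (sh t ω))
      fun S hS => gd_ind (h0 S hS).2 (sub_rlx (h0 S hS).1) fun s hs => O.mem s ((h0 S hS).1 hs))
      (Gd.sum T (fun F t ω => (-1 : ℝ) ^ (Mm F (c F)).card *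
        XQ.Ar (Mp F (c F)) (Mm F (c F)) (sh t ω)) fun F hF => Gd.const_mul
        (gd_Ar hmsx O.L0 (O.sT F hF).2 fun s hs => O.mem s ((O.sT F hF).1 hs)).1 _)
  · exact Vn.add (Vn.sum (M ∪ N) (fun S t ω => ind (Ev (rlx X T c S) S (sh t ω)) * Zs S (sh t ω))
      fun S hS => (vn_Zs fun s hs => O.mem s ((h0 S hS).1 hs)).mul_left _)
      (Vn.sum T (fun F t ω => (-1 : ℝ) ^ (Mm F (c F)).card *
        XQ.Ar (Mp F (c F)) (Mm F (c F)) (sh t ω)) fun F hF => Vn.mul_left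
        (gd_Ar hmsx O.L0 (O.sT F hF).2 fun s hs => O.mem s ((O.sT F hF).1 hs)).2 fun _ _ => _)

/-- the sum `DX` for short bodies -/
lemma One.dx_eq (O : One X L M N T c U) {t : ℝ} {ω : Sp}
    (hloc : ∀ S ∈ N, (Ev (rlx X T c S) S (sh t ω) ↔ EvL S (sh t ω))) :
    DX X T c (M ∪ N) (sh t ω)
      = ∑ S ∈ M, ind (Ev (rlx X T c S) S (sh t ω)) * Zs S (sh t ω) + Gn0 N T c t ω := by
  unfold DX Gn0
  rw [Finset.sum_union O.dis, add_assoc]
  congr 2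
  exact Finset.sum_congr rfl fun S hS => ind_loc (O.sN S hS).2 (hloc S hS)

end one

end Pool.Agent.XQ.H33
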