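import Pool.Agent.Helper33_XQ.Eqn

/-!
Squad XQ (MP_5b0138_an), Part D, module EQN: the equation for the new items (assembly).
-/

set_option autoImplicit false

namespace Pool.Agent.XQ

open MeasureTheory Complex Filter Topology ProbabilityTheory Pool.Agent.H16Iso Pool.Agent.H62T
open Pool.Agent.H16F (Sublin ind)
open Pool.Agent.AEU
open Pool.Agent.AEU.H35 (sublin_ae Adm Tr Lap_sub Lap_congr Lap_zero small_congr)
open Pool.Agent.XQ.H33

/-- module EQN -/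
theorem eqn (hqua : QuaStatement) (hdpx : DpxStatement) (hdcx : DcxStatement)
    (hdns : DnsStatement) (hmsx : MsxStatement) (htrx : TrxStatement) (hlwx : LwxStatement)
    (hexh : ExhStatement) (hjlb : JlbStatement) : EqnStatement := by
  classical
  intro hfb P Q L δ M NP NQ TP TQ cP cQ KP KQ γ gx pgQ S hnt hspec
  have pgP := gx.gen.pg
  have npP : Nonpar P := fun s hs t ht hne =>
    H44.dt_ne_zero _ _ (pgP.unit s hs) (pgP.unit t ht) (gx.gen.g1.lt1 s hs t ht hne)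
  obtain ⟨qP, hqP⟩ := hqua P pgP
  obtain ⟨qQ, hqQ⟩ := hqua Q pgQ
  obtain ⟨δ', m, C, hδ0, hδδ, hm, hdns'⟩ :=
    hdns P Q L δ M NP NQ TP TQ cP cQ KP KQ γ qQ pgP pgQ hqQ S
  obtain ⟨A, hA⟩ : ∃ A, A = L + δ' := ⟨_, rfl⟩
  have hLA : L < A := by linarith
  obtain ⟨f, hf⟩ : ∃ f : Finset HP → Finset HP, f = fun S => S.image (mv (γ S)) := ⟨_, rfl⟩
  have hfS : ∀ S, f S = S.image (mv (γ S)) := fun S => by rw [hf]
  obtain ⟨U, hU⟩ : ∃ U : Finset ℂ, U = (P ∪ Q).image Prod.fst := ⟨_, rfl⟩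
  have UP : ∀ s ∈ P, s.1 ∈ U := fun s hs => by
    rw [hU]; exact Finset.mem_image_of_mem _ (Finset.mem_union_left _ hs)
  have UQ : ∀ s ∈ Q, s.1 ∈ U := fun s hs => by
    rw [hU]; exact Finset.mem_image_of_mem _ (Finset.mem_union_right _ hs)
  have Uu : ∀ u ∈ U, ‖u‖ = 1 := by
    intro u hu
    rw [hU] at hu
    obtain ⟨s, hs, rfl⟩ := Finset.mem_image.1 hu
    exact (Finset.mem_union.1 hs).elim (pgP.unit s) (pgQ.unit s)
  have OP : One P L M NP TP cP U := one_of S.L0 pgP S.pP UP Uu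
  have SpQ : Part Q L δ (M.image f) NQ TQ cQ KQ := by rw [hf]; exact S.pQ
  have OQ : One Q L (M.image f) NQ TQ cQ U := one_of S.L0 pgQ SpQ UQ Uu
  have hfinj : ∀ S₁ ∈ M, ∀ S₂ ∈ M, f S₁ = f S₂ → S₁ = S₂ := by
    rw [hf]; exact S.inj
  -- remainders
  obtain ⟨gRP, -⟩ := gd_R hmsx pgP hqP UP
  obtain ⟨gRQ, vRQ⟩ := gd_R hmsx pgQ hqQ UQ
  obtain ⟨gDQ, vDQ⟩ := OQ.gdDX hmsx
  -- the contribution of facing sides
  obtain ⟨W, hW⟩ : ∃ W : ℝ → Sp → ℝ, W = fun t ω => ch A t ω *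
    ((VX Q (sh t ω) - qQ (sh t ω)) - DX Q TQ cQ (M.image f ∪ NQ) (sh t ω)) := ⟨_, rfl⟩
  have gW : Gd U W := by rw [hW]; exact (gRQ.sub gDQ).bmul (ch_meas A) (ch_le A)
  have vW : Vn U W := by rw [hW]; exact (vRQ.sub vDQ).mul_left _
  have aW : Adm fun t => ∫ ω, W t ω ∂PP := by
    obtain ⟨m', hm', hv⟩ := vW
    exact gW.adm Uu hm' hv
  -- the matched triples
  obtain ⟨iP, hiP⟩ : ∃ iP : Finset HP → ℝ → Sp → ℝ, iP = fun S t ω =>
    ind (Ev (rlx P TP cP S) S (sh t ω)) * Zs S (sh t ω) := ⟨_, rfl⟩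
  obtain ⟨iQ, hiQ⟩ : ∃ iQ : Finset HP → ℝ → Sp → ℝ, iQ = fun S t ω =>
    ind (Ev (rlx Q TQ cQ S) S (sh t ω)) * Zs S (sh t ω) := ⟨_, rfl⟩
  have giP : ∀ S ∈ M, Gd U fun t ω => ch A t ω * iP S t ω := fun S hS => by
    rw [hiP]
    exact (gd_ind (OP.sM S hS).2 (sub_rlx (OP.sM S hS).1)
      fun s hs => UP s ((OP.sM S hS).1 hs)).bmul (ch_meas A) (ch_le A)
  have hfM : ∀ S ∈ M, f S ∈ M.image f := fun S hS => Finset.mem_image_of_mem f hS
  have giQ : ∀ S ∈ M, Gd U fun t ω => ch A t ω * iQ (f S) t ω := fun S hS => by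
    rw [hiQ]
    exact (gd_ind (OQ.sM _ (hfM S hS)).2 (sub_rlx (OQ.sM _ (hfM S hS)).1)
      fun s hs => UQ s ((OQ.sM _ (hfM S hS)).1 hs)).bmul (ch_meas A) (ch_le A)
  have hMint : ∀ S ∈ M, ∀ t, 0 < t →
      ∫ ω, ch A t ω * iP S t ω ∂PP = ∫ ω, ch A t ω * iQ (f S) t ω ∂PP := by
    intro S₁ hS₁ t ht
    have h1 := hlwx (rlx P TP cP S₁) (rlx Q TQ cQ (f S₁)) S₁ (γ S₁) A
      (sub_rlx (OP.sM S₁ hS₁).1) (OP.sM S₁ hS₁).2.card (OP.sM S₁ hS₁).2.unit
      (OP.sM S₁ hS₁).2.nd (by rw [← hfS]; exact sub_rlx (OQ.sM _ (hfM S₁ hS₁)).1) (by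
        intro h hh hlt
        rw [hfS]
        exact S.mat S₁ hS₁ h hh (by linarith)) t ht
    rw [← hfS] at h1
    have e : ∀ k : Sp → ℝ, ∫ ω, ch A t ω * k ω ∂PP
        = ∫ ω, ind (Real.sqrt t * lam (hs ω) < A) * k ω ∂PP := by
      intro k
      refine integral_congr_ae ?_
      filter_upwards [ll_ae] with ω hω
      unfold ch
      rw [hω]
    rw [e, e, hiP, hiQ]
    exact h1
  -- the error term
  obtain ⟨E, hE⟩ : ∃ E : ℝ → Sp → ℝ, E = fun t ω =>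
    Gn0 NP TP cP t ω - Gn0 NQ TQ cQ t ω
      - ((VX P (sh t ω) - qP (sh t ω)) - (VX Q (sh t ω) - qQ (sh t ω)))
      + (∑ S ∈ M, ch A t ω * iP S t ω - ∑ S ∈ M, ch A t ω * iQ (f S) t ω) - W t ω := ⟨_, rfl⟩
  have gS1 : Gd U fun t ω => ∑ S ∈ M, ch A t ω * iP S t ω := Gd.sum M _ giP
  have gS2 : Gd U fun t ω => ∑ S ∈ M, ch A t ω * iQ (f S) t ω := Gd.sum M _ giQ
  have g1 := OP.gd0 hmsx
  have g2 := OQ.gd0 hmsx
  have gE : Gd U E := by
    rw [hE]
    exact (((g1.sub g2).sub (gRP.sub gRQ)).add (gS1.sub gS2)).sub gW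
  have hEint : ∀ t, 0 < t → ∫ ω, E t ω ∂PP
      = (Gn1 NP TP cP t - Gn1 NQ TQ cQ t) - ∫ ω, W t ω ∂PP := by
    intro t ht
    have h1 : ∫ ω, ((VX P (sh t ω) - qP (sh t ω)) - (VX Q (sh t ω) - qQ (sh t ω))) ∂PP = 0 := by
      rw [integral_sub (gRP.integrable t) (gRQ.integrable t)]
      exact sub_eq_zero.2 (hexh P Q qP qQ pgP pgQ hqP hqQ hspec t ht)
    have h2 : ∫ ω, (∑ S ∈ M, ch A t ω * iP S t ω - ∑ S ∈ M, ch A t ω * iQ (f S) t ω) ∂PP = 0 := by
      rw [integral_sub (gS1.integrable t) (gS2.integrable t),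
        integral_finsetSum _ fun S hS => (giP S hS).integrable t,
        integral_finsetSum _ fun S hS => (giQ S hS).integrable t, sub_eq_zero]
      exact Finset.sum_congr rfl fun S hS => hMint S hS t ht
    rw [hE]
    simp only
    rw [integral_sub ((((g1.sub g2).sub (gRP.sub gRQ)).add (gS1.sub gS2)).integrable t)
        (gW.integrable t),
      integral_add (((g1.sub g2).sub (gRP.sub gRQ)).integrable t) ((gS1.sub gS2).integrable t),
      integral_sub ((g1.sub g2).integrable t) ((gRP.sub gRQ).integrable t),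
      integral_sub (g1.integrable t) (g2.integrable t), h1, h2, OP.int0 hmsx, OQ.int0 hmsx]
    ring
  -- the good loops
  have hgood : ∀ᵐ ω ∂PP, Sublin (hs ω) ∧ ll ω = lam (hs ω) ∧ (∀ t, 0 < t → NoTie P (sh t ω)) ∧
      ∀ t, 0 < t → ∀ S ∈ M, NoTie P (mb (γ S)⁻¹ (sh t ω)) := by
    have h1 : ∀ᵐ ω ∂PP, ∀ S ∈ M, ∀ t, 0 < t → NoTie P (mb (γ S)⁻¹ (sh t ω)) :=
      (Filter.eventually_all_finset M).2 fun S _ => noTie_mb hnt (γ S)⁻¹
    filter_upwards [sublin_ae, ll_ae, noTie_sh hnt, h1] with ω k1 k2 k3 k4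
    exact ⟨k1, k2, k3, fun t ht S hS => k4 S hS t ht⟩
  have hdQ : ∀ t ω, Sublin (hs ω) → Real.sqrt t * lam (hs ω) < A →
      (∀ S ∈ M, NoTie P (mb (γ S)⁻¹ (sh t ω))) →
      ((∀ a a', FacePair Q L a a' → sh t ω a.1 + sh t ω a'.1 ≤ L / 2) →
        VX Q (sh t ω) = qQ (sh t ω) + DX Q TQ cQ (M.image f ∪ NQ) (sh t ω)) ∧
      ∀ a a', FacePair Q L a a' → L / 2 < sh t ω a.1 + sh t ω a'.1 →
        m * (sh t ω a.1 + sh t ω a'.1 - L / 2) - C * (sh t ω a.1 + sh t ω a'.1 - L / 2) ^ 2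
          ≤ VX Q (sh t ω) - qQ (sh t ω) - DX Q TQ cQ (M.image f ∪ NQ) (sh t ω) := by
    intro t ω h1 h2 h3
    have := hdns' (sh t ω) (sublin_sh h1 t) (by rw [lam_sh]; linarith) h3
    rw [hf]
    exact this
  have hEv : ∀ t, 0 < t → ∀ᵐ ω ∂PP, Real.sqrt t * lam (hs ω) < A → E t ω = 0 := by
    intro t ht
    filter_upwards [hgood] with ω hω hlt
    obtain ⟨k1, k2, k3, -⟩ := hω
    have hs' := sublin_sh k1 t
    have hlam : lam (sh t ω) < L + δ := by rw [lam_sh]; linarith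
    have hc : ch A t ω = 1 := ch_pos k2 hlt
    have e1 := hdpx P qP pgP npP hqP (sh t ω) hs' (k3 t ht)
    have e2 := hdcx P L δ M NP TP cP KP S.L0 pgP S.pP (sh t ω) hs' hlam (k3 t ht)
    have e3 := OP.dx_eq (t := t) (ω := ω) fun S₁ hS₁ => S.pP.loc S₁ hS₁ _ hs' hlam
    have e4 := OQ.dx_eq (t := t) (ω := ω) fun S₁ hS₁ => SpQ.loc S₁ hS₁ _ hs' hlam
    have e5 : ∑ S ∈ M.image f, ind (Ev (rlx Q TQ cQ S) S (sh t ω)) * Zs S (sh t ω)
        = ∑ S ∈ M, iQ (f S) t ω := by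
      rw [Finset.sum_image fun a ha b hb => hfinj a ha b hb, hiQ]
    rw [e5] at e4
    rw [hE, hW]
    simp only
    rw [hc]
    simp only [one_mul]
    have e6 : ∑ S ∈ M, iP S t ω = ∑ S ∈ M, ind (Ev (rlx P TP cP S) S (sh t ω)) * Zs S (sh t ω) := by
      rw [hiP]
    rw [e6]
    linarith
  have hsmall := gE.small htrx S.L0.le hLA hEv
  refine ⟨Lap fun t => ∫ ω, W t ω ∂PP, ?_, ?_⟩
  · by_cases hfp : ∃ a a', FacePair Q L a a'
    · right
      obtain ⟨C', -, hC'⟩ := gW.bd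
      refine hjlb hfb L A m C C' ((Q.filter fun a => ∃ a', FacePair Q L a a').image Prod.fst) U W
        S.L0 hLA hm ?_ ?_ gW.meas ?_
      · obtain ⟨a, a', h⟩ := hfp
        exact ⟨a.1, Finset.mem_image_of_mem _ (Finset.mem_filter.2 ⟨h.mem, a', h⟩)⟩
      · intro u hu
        obtain ⟨a, ha, rfl⟩ := Finset.mem_image.1 hu
        exact pgQ.unit a (Finset.mem_filter.1 ha).1
      · intro t ht
        filter_upwards [hgood] with ω hω
        obtain ⟨k1, k2, -, k4⟩ := hω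
        have eq1 : ∀ a a', FacePair Q L a a' → sh t ω a.1 + sh t ω a'.1
            = Real.sqrt t * (hs ω a.1 + hs ω (-a.1)) := by
          intro a a' h
          unfold sh
          rw [h.opp]
          ring
        refine ⟨hC' t ω, fun hlt => ?_, fun hlt => ⟨fun hall => ?_, ?_⟩⟩
        · rw [hW]
          simp only
          rw [ch_neg k2 hlt, zero_mul]
        · have h1 := (hdQ t ω k1 hlt (k4 t ht)).1 (by
            intro a a' h
            rw [eq1 a a' h]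
            exact hall a.1 (Finset.mem_image_of_mem _ (Finset.mem_filter.2 ⟨h.mem, a', h⟩)))
          rw [hW]
          simp only
          rw [h1]
          ring
        · intro u hu hlt'
          obtain ⟨a, ha, rfl⟩ := Finset.mem_image.1 hu
          obtain ⟨-, a', h⟩ := Finset.mem_filter.1 ha
          have h1 := (hdQ t ω k1 hlt (k4 t ht)).2 a a' h (by rw [eq1 a a' h]; exact hlt')
          rw [eq1 a a' h] at h1
          rw [hW]
          simp only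
          rw [ch_pos k2 hlt, one_mul]
          exact h1
    · left
      refine ⟨?_, fun a a' h => hfp ⟨a, a', h⟩⟩
      funext κ
      rw [Pi.zero_apply, ← Lap_zero κ]
      refine Lap_congr (fun t ht => ?_) κ
      refine integral_eq_zero_of_ae ?_
      filter_upwards [hgood] with ω hω
      obtain ⟨k1, k2, -, k4⟩ := hω
      rw [hW]
      simp only [Pi.zero_apply]
      rcases lt_or_ge (Real.sqrt t * lam (hs ω)) A with hlt | hge
      · have h1 := (hdQ t ω k1 hlt (k4 t ht)).1 fun a a' h => absurd ⟨a, a', h⟩ hfp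
        rw [h1]
        ring
      · rw [ch_neg k2 hge, zero_mul]
  · refine small_congr hsmall ?_
    filter_upwards [eventually_gt_atTop 0] with κ hκ
    rw [Lap_congr hEint κ, Lap_sub ((OP.adm1 hmsx).sub (OQ.adm1 hmsx)) aW hκ,
      Lap_sub (OP.adm1 hmsx) (OQ.adm1 hmsx) hκ, OP.lap1 hmsx hκ, OQ.lap1 hmsx hκ]
    rfl

end Pool.Agent.XQ
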