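import Pool.Agent.Helper33_XQ.Trx
import Pool.Agent.Helper69_XQ.LWX

/-!
Squad XQ (MP_5b0138_an), Part D: a calculus for random functions of quadratic growth.
-/

set_option autoImplicit false

namespace Pool.Agent.XQ.H33

open MeasureTheory Complex Filter Topology ProbabilityTheory Pool.Agent.H16Iso Pool.Agent.H62T
open Pool.Agent.H16F (Sublin ind)
open Pool.Agent.AEU
open Pool.Agent.H62T.H9 (AM)
open Pool.Agent.AEU.H35 (momS Lap_small Adm sublin_ae sublin_scale lam_smul abs_ind_le)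

/-- the scaled loop -/
noncomputable def sh (t : ℝ) (ω : Sp) (u : ℂ) : ℝ := Real.sqrt t * hs ω u

/-- jointly measurable and of quadratic growth -/
structure Gd (U : Finset ℂ) (f : ℝ → Sp → ℝ) : Prop where
  meas : Measurable fun p : ℝ × Sp => f p.1 p.2
  bd : ∃ C : ℝ, 0 ≤ C ∧ ∀ t ω, |f t ω| ≤ C * szU U (sh t ω)

lemma szU_mono {U V : Finset ℂ} (h : U ⊆ V) (k : ℂ → ℝ) : szU U k ≤ szU V k := by
  unfold szU
  have h1 : ∑ u ∈ U, |k u| ≤ ∑ u ∈ V, |k u| :=
    Finset.sum_le_sum_of_subset_of_nonneg h fun _ _ _ => abs_nonneg _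
  have h0 : 0 ≤ ∑ u ∈ U, |k u| := Finset.sum_nonneg fun i _ => abs_nonneg _
  gcongr

namespace Gd

variable {U V : Finset ℂ} {f g : ℝ → Sp → ℝ}

lemma mono (h : U ⊆ V) (hf : Gd U f) : Gd V f := by
  obtain ⟨C, hC, h1⟩ := hf.bd
  exact ⟨hf.meas, C, hC, fun t ω => (h1 t ω).trans
    (mul_le_mul_of_nonneg_left (szU_mono h _) hC)⟩

lemma zero (U : Finset ℂ) : Gd U fun _ _ => 0 :=
  ⟨measurable_const, 0, le_rfl, fun t ω => by simp⟩

lemma add (hf : Gd U f) (hg : Gd U g) : Gd U fun t ω => f t ω + g t ω := by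
  obtain ⟨C, hC, h1⟩ := hf.bd
  obtain ⟨D, hD, h2⟩ := hg.bd
  refine ⟨hf.meas.add hg.meas, C + D, add_nonneg hC hD, fun t ω => ?_⟩
  rw [add_mul]
  exact (abs_add_le _ _).trans (add_le_add (h1 t ω) (h2 t ω))

lemma const_mul (hf : Gd U f) (c : ℝ) : Gd U fun t ω => c * f t ω := by
  obtain ⟨C, hC, h1⟩ := hf.bd
  refine ⟨hf.meas.const_mul c, |c| * C, mul_nonneg (abs_nonneg _) hC, fun t ω => ?_⟩
  rw [abs_mul, mul_assoc]
  exact mul_le_mul_of_nonneg_left (h1 t ω) (abs_nonneg _)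

lemma sub (hf : Gd U f) (hg : Gd U g) : Gd U fun t ω => f t ω - g t ω := by
  have := hf.add (hg.const_mul (-1))
  simpa [sub_eq_add_neg] using this

lemma sum {ι : Type} (T : Finset ι) (F : ι → ℝ → Sp → ℝ) (hF : ∀ i ∈ T, Gd U (F i)) :
    Gd U fun t ω => ∑ i ∈ T, F i t ω := by
  classical
  induction T using Finset.induction_on with
  | empty => simpa using Gd.zero U
  | insert a T ha ih =>
    have h1 := (hF a (Finset.mem_insert_self _ _)).add
      (ih fun i hi => hF i (Finset.mem_insert_of_mem hi))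
    simpa only [Finset.sum_insert ha] using h1

/-- multiplication with a bounded function -/
lemma bmul (hf : Gd U f) {e : ℝ → Sp → ℝ} (he : Measurable fun p : ℝ × Sp => e p.1 p.2)
    (hb : ∀ t ω, |e t ω| ≤ 1) : Gd U fun t ω => e t ω * f t ω := by
  obtain ⟨C, hC, h1⟩ := hf.bd
  refine ⟨he.mul hf.meas, C, hC, fun t ω => ?_⟩
  rw [abs_mul]
  calc |e t ω| * |f t ω| ≤ 1 * |f t ω| := mul_le_mul_of_nonneg_right (hb t ω) (abs_nonneg _)
    _ ≤ _ := by rw [one_mul]; exact h1 t ω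

lemma bound_near (hf : Gd U f) : ∃ C : ℝ, 0 ≤ C ∧ ∀ t, t ≤ 1 → ∀ ω,
    |f t ω| ≤ C * szU U (hs ω) := by
  obtain ⟨C, hC, h1⟩ := hf.bd
  exact ⟨C, hC, fun t ht ω => (h1 t ω).trans
    (mul_le_mul_of_nonneg_left (szU_near U ω ht) hC)⟩

lemma bound_far (hf : Gd U f) : ∃ C : ℝ, 0 ≤ C ∧ ∀ t, 1 ≤ t → ∀ ω,
    |f t ω| ≤ C * szU U (hs ω) * t := by
  obtain ⟨C, hC, h1⟩ := hf.bd
  refine ⟨C, hC, fun t ht ω => (h1 t ω).trans ?_⟩
  have := mul_le_mul_of_nonneg_left (szU_far U ω ht) hC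
  unfold sh
  linarith

lemma integrable (hf : Gd U f) (t : ℝ) : Integrable (f t) PP := by
  have hm : Measurable (f t) := hf.meas.comp measurable_prodMk_left
  rcases le_total t 1 with ht | ht
  · obtain ⟨C, -, h⟩ := hf.bound_near
    exact (am_szU U C).integrable.mono' hm.aestronglyMeasurable
      (Eventually.of_forall fun ω => h t ht ω)
  · obtain ⟨C, -, h⟩ := hf.bound_far
    exact ((am_szU U C).integrable.mul_const t).mono' hm.aestronglyMeasurable
      (Eventually.of_forall fun ω => h t ht ω)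

/-- functions which vanish for small loops have admissible expectations -/
lemma adm (hf : Gd U f) (hU : ∀ u ∈ U, ‖u‖ = 1) {m : ℝ} (hm : 0 < m)
    (hz : ∀ t, 0 < t → ∀ᵐ ω ∂PP, (∀ u ∈ U, |sh t ω u| < m) → f t ω = 0) :
    Adm fun t => ∫ ω, f t ω ∂PP := by
  refine ⟨?_, ?_, ?_⟩
  · exact (hf.meas.stronglyMeasurable.integral_prod_right' (ν := PP)).measurable
  · obtain ⟨C, hC0, hC⟩ := hf.bound_near
    have hA : ∀ ε : ℝ, 0 < ε → ε < 1 → ∃ C : ℝ, ∀ t : ℝ, 0 < t → t ≤ 1 →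
        PP {ω | ∃ s ∈ U, ω ∈ {ω | m ≤ Real.sqrt t * hs ω s}} ≤
          ENNReal.ofReal (C * Real.exp (-((1 - ε) * m ^ 2 / t))) := by
      refine H16F.H10.tail_finset U (A := fun s t => {ω | m ≤ Real.sqrt t * hs ω s}) ?_
      intro s hs'
      refine H16F.H10.tail_scale (X := fun ω => hs ω s) ?_ hm.le
      intro ε h0 h1
      obtain ⟨C, hC⟩ := H16F.H13.ut.1 s (hU s hs') ε h0 h1
      refine ⟨C, fun y hy => (measure_mono fun ω hω => ?_).trans (hC y hy)⟩
      have h2 : y ≤ hs ω s := hω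
      show y ≤ hs ω s + hs ω (-s)
      linarith [momS.2.1 (-s) ω]
    obtain ⟨C', -, hC'⟩ := H16F.H10.tail_int (am_szU U C)
      (fun ω => mul_nonneg hC0 (szU_nonneg _ _)) hA (1 / 2) (by norm_num) (by norm_num)
    refine ⟨C', m ^ 2 / 2, by positivity, fun t ht ht1 => ?_⟩
    have h1 := hC' t ht ht1 (f t) (by
      filter_upwards [hz t ht] with ω hω0
      by_cases hω : ∃ s ∈ U, m ≤ Real.sqrt t * hs ω s
      · rw [H16F.H10.ind_pos hω, mul_one]
        exact hC t ht1 ω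
      · have h2 : f t ω = 0 := by
          apply hω0
          intro s hs'
          by_contra hcon
          push Not at hcon
          unfold sh at hcon
          rw [abs_of_nonneg (mul_nonneg (Real.sqrt_nonneg _) (momS.2.1 _ _))] at hcon
          exact hω ⟨s, hs', hcon⟩
        rw [h2, abs_zero]
        exact mul_nonneg (mul_nonneg hC0 (szU_nonneg _ _)) (H16F.H10.ind_nonneg _))
    refine h1.trans (le_of_eq ?_)
    congr 2
    ring
  · obtain ⟨C, -, h⟩ := hf.bound_far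
    refine ⟨∫ ω, C * szU U (hs ω) ∂PP, fun t ht => ?_⟩
    have hi : Integrable (fun ω => C * szU U (hs ω) * t) PP :=
      (am_szU U C).integrable.mul_const t
    have h1 := norm_integral_le_of_norm_le (f := f t) hi
      (Eventually.of_forall fun ω => by rw [Real.norm_eq_abs]; exact h t ht ω)
    rw [Real.norm_eq_abs, integral_mul_const] at h1
    exact h1

/-- long loops do not contribute -/
lemma small (htrx : TrxStatement) (hf : Gd U f) {L A : ℝ} (hL : 0 ≤ L) (hA : L < A)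
    (hz : ∀ t, 0 < t → ∀ᵐ ω ∂PP, Real.sqrt t * lam (hs ω) < A → f t ω = 0) :
    Small L (Lap fun t => ∫ ω, f t ω ∂PP) := by
  obtain ⟨C, -, h1⟩ := hf.bd
  refine htrx L A C U f hL hA fun t ht => ?_
  filter_upwards [hz t ht] with ω hω
  exact ⟨h1 t ω, hω⟩

end Gd

/-! ### A measurable version of the perimeter -/

/-- measurable version of the perimeter of the loop -/
noncomputable def ll : Sp → ℝ := aem_lam.mk _

lemma ll_meas : Measurable ll := aem_lam.measurable_mk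

lemma ll_ae : ∀ᵐ ω ∂PP, ll ω = lam (hs ω) := by
  filter_upwards [aem_lam.ae_eq_mk] with ω hω
  exact hω.symm

/-- the indicator of short loops -/
noncomputable def ch (A t : ℝ) (ω : Sp) : ℝ := ind (Real.sqrt t * ll ω < A)

lemma ch_meas (A : ℝ) : Measurable fun p : ℝ × Sp => ch A p.1 p.2 := by
  unfold ch Pool.Agent.H16F.ind
  refine Measurable.ite ?_ measurable_const measurable_const
  exact measurableSet_lt ((Real.continuous_sqrt.measurable.comp measurable_fst).mul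
    (ll_meas.comp measurable_snd)) measurable_const

lemma ch_le (A t : ℝ) (ω : Sp) : |ch A t ω| ≤ 1 := abs_ind_le _

lemma ch_pos {A t : ℝ} {ω : Sp} (h : ll ω = lam (hs ω)) (hA : Real.sqrt t * lam (hs ω) < A) :
    ch A t ω = 1 := by
  unfold ch
  rw [h]
  exact H16F.H10.ind_pos hA

lemma ch_neg {A t : ℝ} {ω : Sp} (h : ll ω = lam (hs ω)) (hA : A ≤ Real.sqrt t * lam (hs ω)) :
    ch A t ω = 0 := by
  unfold ch
  rw [h]
  exact H16F.H10.ind_neg (not_lt.2 hA)

end Pool.Agent.XQ.H33
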