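import Pool.Agent.Helper33_XQ.Slide
import Pool.Agent.Helper53_XQ.VXX

/-!
Squad XQ (MP_5b0138_an), Part G, module LMX: special bodies of length `L` with at least four
contacts which can be placed are matched.
-/

set_option autoImplicit false

namespace Pool.Agent.XQ.H33

open MeasureTheory Complex Filter Topology Pool.Agent.H62T
open Pool.Agent.H16F (Sublin)
open Pool.Agent.AEU
open Pool.Agent.AEU.H69 (mem_touch mixS hul)

/-- the three shapes touch at most four sides -/
theorem shape_card {P : Finset HP} (pP : Pg P) {h : ℂ → ℝ}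
    (hs : (∃ i j q r v x y, ShE P h i j q r v x y) ∨ (∃ i j k l v w, Sh3 P h i j k l v w) ∨
      ∃ i j k s v w x, Sh4 P h i j k s v w x) : (touch P h).card ≤ 4 := by
  rcases hs with ⟨i, j, q, r, v, x, y, H⟩ | ⟨i, j, k, l, v, w, H⟩ | ⟨i, j, k, s, v, w, x, H⟩
  · have hx : x ∈ Cl P := by
      intro t ht
      by_cases e : t = q
      · rw [e, H.xq]
      · exact (H.xs t ht e).le
    have hy : y ∈ Cl P := by
      intro t ht
      by_cases e : t = r
      · rw [e, H.yr]
      · exact (H.ys t ht e).le
    have hmx := (mixS P).2.2 2 ![v, x, y] (by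
      intro n
      fin_cases n
      · exact H.vi.cl
      · exact hx
      · exact hy)
    refine le_trans (Finset.card_le_card (?_ : touch P h ⊆ {i, j, q, r})) Finset.card_le_four
    intro t ht
    rw [H.body, hmx.2] at ht
    obtain ⟨htP, n, hn⟩ := ht
    simp only [Finset.mem_insert, Finset.mem_singleton]
    fin_cases n
    · rcases (vxx P pP).1 i j v H.vi t htP hn with e | e
      · exact Or.inl e
      · exact Or.inr (Or.inl e)
    · by_cases e : t = q
      · exact Or.inr (Or.inr (Or.inl e))
      · exact absurd hn (H.xs t htP e).ne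
    · by_cases e : t = r
      · exact Or.inr (Or.inr (Or.inr e))
      · exact absurd hn (H.ys t htP e).ne
  · rw [(sh3_data vxx pP H).2.2.1]
    exact Finset.card_le_four
  · have hx : x ∈ Cl P := by
      intro t ht
      by_cases e : t = s
      · rw [e, H.xs]
      · exact (H.xt t ht e).le
    have hmx := (mixS P).2.2 2 ![v, w, x] (by
      intro n
      fin_cases n
      · exact H.vi.cl
      · exact H.wk.cl
      · exact hx)
    refine le_trans (Finset.card_le_card (?_ : touch P h ⊆ {i, j, k, s})) Finset.card_le_four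
    intro t ht
    rw [H.body, hmx.2] at ht
    obtain ⟨htP, n, hn⟩ := ht
    simp only [Finset.mem_insert, Finset.mem_singleton]
    fin_cases n
    · rcases (vxx P pP).1 i j v H.vi t htP hn with e | e
      · exact Or.inl e
      · exact Or.inr (Or.inl e)
    · rcases (vxx P pP).1 j k w H.wk t htP hn with e | e
      · exact Or.inr (Or.inl e)
      · exact Or.inr (Or.inr (Or.inl e))
    · by_cases e : t = s
      · exact Or.inr (Or.inr (Or.inr e))
      · exact absurd hn (H.xt t htP e).ne

/-- the placed body: images of the touched sides -/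
theorem placed_image {X Y : Finset HP} {g : Iso2} {h : ℂ → ℝ}
    (hm : ∀ s ∈ touch X h, mv g s ∈ Y) :
    (touch X h).image (mv g) ⊆ touch Y (mb g h) ∧
      (∀ s ∈ (touch X h).image (mv g), mv g⁻¹ s ∈ touch X h) := by
  constructor
  · intro s hs
    obtain ⟨t, ht, rfl⟩ := Finset.mem_image.1 hs
    exact touch_mv ht (hm t ht)
  · intro s hs
    obtain ⟨t, ht, rfl⟩ := Finset.mem_image.1 hs
    rw [mv_inv']
    exact ht

theorem placed_of_not_unl {X Y : Finset HP} {h : ℂ → ℝ} (hs : Special X h) (hn : ¬ Unl X Y h) :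
    ∃ g, Fits Y (mb g h) ∧ ∀ s ∈ touch X h, mv g s ∈ Y := by
  by_contra hc
  exact hn ⟨hs, hc⟩

end Pool.Agent.XQ.H33

namespace Pool.Agent.XQ

open Pool.Agent.AEU

/-- module LMX -/
theorem lmx (_hevr : EvrStatement) (hunx : UnxStatement) (ht3x : T3xStatement)
    (hcqx : CqxStatement) (hcpx : CpxStatement) (huql : UqlStatement) : LmxStatement := by
  intro P Q L H gx pq
  have pP := gx.gen.pg
  have G1P := gx.gen.g1
  constructor
  · intro h hsp hl h4 hn
    obtain ⟨g, hf, hm⟩ := H33.placed_of_not_unl hsp hn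
    obtain ⟨him, hback⟩ := H33.placed_image hm
    have hcard : ((touch P h).image (mv g)).card = (touch P h).card := H33.card_image_mv g _
    have h4' : 4 ≤ (touch Q (mb g h)).card := by
      rw [← hcard] at h4
      exact h4.trans (Finset.card_le_card him)
    have spk : Special Q (mb g h) := ⟨H33.sub_mb g hsp.sub, hf, by omega, Or.inr h4'⟩
    have lk : lam (mb g h) = L := by rw [H33.lam_mb g hsp.sub]; exact hl
    by_cases hun : Unl Q P (mb g h)
    · exfalso
      obtain ⟨i, j, k, l, v, w, g1, g2, -, ht⟩ := hcqx P Q L H gx pq _ hun lk h4'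
      have hle : (touch Q (mb g h)).card ≤ ((touch P h).image (mv g)).card := by
        rw [hcard, ht]
        exact Finset.card_le_four.trans h4
      have heq := Finset.eq_of_subset_of_card_le him hle
      refine hun.2 ⟨g⁻¹, by rw [H33.mb_inv']; exact hsp.fits, fun s hs => ?_⟩
      rw [← heq] at hs
      exact (H69.mem_touch.1 (hback s hs)).1
    · obtain ⟨g2, -, hm2⟩ := H33.placed_of_not_unl spk hun
      have e : g2 = g⁻¹ := (hunx.2 Q P pq.unit pP G1P g2 g⁻¹).2 _
        (fun s hs => (H69.mem_touch.1 (him hs)).1) (by rw [hcard]; omega)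
        (fun s hs => hm2 s (him hs)) (fun s hs => (H69.mem_touch.1 (hback s hs)).1)
      rw [e] at hm2
      exact ⟨g, hsp.fits, hf, hm, hm2⟩
  · intro h hsp hl h4 hn
    obtain ⟨g, hf, hm⟩ := H33.placed_of_not_unl hsp hn
    obtain ⟨him, hback⟩ := H33.placed_image hm
    have hcard : ((touch Q h).image (mv g)).card = (touch Q h).card := H33.card_image_mv g _
    have h4' : 4 ≤ (touch P (mb g h)).card := by
      rw [← hcard] at h4
      exact h4.trans (Finset.card_le_card him)
    have spk : Special P (mb g h) := ⟨H33.sub_mb g hsp.sub, hf, by omega, Or.inr h4'⟩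
    have lk : lam (mb g h) = L := by rw [H33.lam_mb g hsp.sub]; exact hl
    by_cases hun : Unl P Q (mb g h)
    · exfalso
      obtain ⟨-, hsh⟩ := hcpx P Q L H gx pq _ hun lk h4'
      have hle : (touch P (mb g h)).card ≤ ((touch Q h).image (mv g)).card := by
        rw [hcard]
        exact (H33.shape_card pP hsh).trans h4
      have heq := Finset.eq_of_subset_of_card_le him hle
      refine hun.2 ⟨g⁻¹, by rw [H33.mb_inv']; exact hsp.fits, fun s hs => ?_⟩
      rw [← heq] at hs
      exact (H69.mem_touch.1 (hback s hs)).1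
    · obtain ⟨g2, hf2, hm2⟩ := H33.placed_of_not_unl spk hun
      obtain ⟨F, hF, hF4⟩ := Finset.exists_subset_card_eq (by rw [hcard]; exact h4 :
        4 ≤ ((touch Q h).image (mv g)).card)
      obtain ⟨t, ht, hlt⟩ := ht3x P pP (mb g h) spk.sub hf F (hF.trans him) hF4
      rw [lk] at hlt
      have hc3 : (F.erase t).card = 3 := by rw [Finset.card_erase_of_mem ht, hF4]
      have hsubF : F.erase t ⊆ (touch Q h).image (mv g) := (Finset.erase_subset _ _).trans hF
      have W2 : WP P Q g2 (F.erase t) (mb g h) := ⟨hc3, spk.sub, hf, hf2, hsubF.trans him,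
        fun s hs => hm2 s (him (hsubF hs))⟩
      have W1 : WP P Q g⁻¹ (F.erase t) (mb g h) := ⟨hc3, spk.sub, hf, by
        rw [H33.mb_inv']; exact hsp.fits, hsubF.trans him,
        fun s hs => (H69.mem_touch.1 (hback s (hsubF hs))).1⟩
      have e : g2 = g⁻¹ := huql P Q L H gx pq g2 g⁻¹ _ _ W2 W1 lk.le hlt
      rw [e] at hm2
      exact ⟨g, hsp.fits, hf, hm, hm2⟩

end Pool.Agent.XQ
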