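import Pool.Agent.Helper33_XQ.Slide

/-!
Squad XQ (MP_5b0138_an), Part G, module QTX: type III in `Q`.
-/

set_option autoImplicit false

namespace Pool.Agent.XQ.H33

open MeasureTheory Complex Filter Topology Pool.Agent.H62T
open Pool.Agent.H16F (Sublin)
open Pool.Agent.AEU
open Pool.Agent.AEU.H69 (mem_touch mixS hul)

/-- an acute side at the end `p` of the diagonal `[p, q]` gives a placement of `h` and of the
three other sides, together with a short matched body -/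
theorem placed (hvxx : VxxStatement) (hlcx : LcxStatement) (hslx : SlxStatement)
    {P Q : Finset HP} {L : ℝ} (E : Env Q P L) {h : ℂ → ℝ} (hsub : Sublin h) (hfit : Fits Q h)
    (hl : lam h = L) {a b c d : HP} {p q : ℂ} (ha : VxOf Q a b p) (hc : VxOf Q c d q)
    (hne : Ne4 a b c d) (hq : In q h) (hlen : lam h = 2 * ‖p - q‖)
    (ht : ({a, c, d} : Finset HP) ⊆ touch Q h) (hac : Ac (q - p) a b) :
    ∃ (g : Iso2) (h' : ℂ → ℝ), Special Q h' ∧ ({a, c, d} : Finset HP) ⊆ touch Q h' ∧ lam h' < L ∧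
      Mat Q P g h' ∧ Fits P (mb g h) ∧ mv g a ∈ P ∧ mv g c ∈ P ∧ mv g d ∈ P := by
  obtain ⟨h', hsp, hin, hsub', hlt⟩ := slide hvxx hslx E.pg ha hc hne hac
  have hlt' : lam h' < L := by rw [← hl, hlen]; exact hlt
  have h3 : ({a, c, d} : Finset HP).card = 3 :=
    Finset.card_eq_three.2 ⟨a, c, d, hne.2.1, hne.2.2.1, hne.2.2.2.2.2, rfl⟩
  have hinter : ({a, c, d} : Finset HP) ⊆ touch Q h' ∩ touch Q h :=
    Finset.subset_inter hsub' ht
  obtain ⟨g, hm, hf, hmem⟩ := hlcx Q P L E h' h hsp.sub hsub hsp.fits hfit hlt' hl.le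
    (by rw [← h3]; exact Finset.card_le_card hinter) (Or.inl ⟨q, ⟨c, d, hc⟩, hin, hq⟩)
  exact ⟨g, h', hsp, hsub', hlt', hm, hf, hmem a (hinter (by simp)), hmem c (hinter (by simp)),
    hmem d (hinter (by simp))⟩

/-- `{a, c, d}` as a subset of four touched sides -/
theorem sub4 {F : Finset HP} {a c d : HP} (ha : a ∈ F) (hc : c ∈ F) (hd : d ∈ F) :
    ({a, c, d} : Finset HP) ⊆ F := by
  intro s hs
  rw [Finset.mem_insert, Finset.mem_insert, Finset.mem_singleton] at hs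
  rcases hs with rfl | rfl | rfl
  · exact ha
  · exact hc
  · exact hd

/-- the main case of QTX -/
theorem qtx_main (hvxx : VxxStatement) (hlcx : LcxStatement) (hlxx : LxxStatement)
    (hslx : SlxStatement) (hunx : UnxStatement) (hk4x : K4xStatement)
    {P Q : Finset HP} {L : ℝ} (E : Env Q P L) (gP : G1 P) {h : ℂ → ℝ} {i j k l : HP} {v w : ℂ}
    (hs : Sh3 Q h i j k l v w) (hmin : MinF Q h) (hunl : Unl Q P h) (hl : lam h = L)
    (hai : Ac (w - v) i j) (hak : Ac (v - w) k l) :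
    ∃ g1 g2, QTor Q P L h i j k l v w g1 g2 := by
  obtain ⟨hsub, hfit, htch, hv, hw, hlen⟩ := sh3_data hvxx E.pg hs
  obtain ⟨nij, nik, nil, njk, njl, nkl⟩ := hs.ne
  have ti : i ∈ touch Q h := by rw [htch]; simp
  have tj : j ∈ touch Q h := by rw [htch]; simp
  have tk : k ∈ touch Q h := by rw [htch]; simp
  have tl : l ∈ touch Q h := by rw [htch]; simp
  have hlen' : lam h = 2 * ‖w - v‖ := by rw [hlen, norm_sub_rev]
  have symm : ∀ {a b : HP} {p : ℂ}, VxOf Q a b p → VxOf Q b a p := fun {a b p} ha =>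
    ⟨ha.cl, ha.mem₂, ha.mem₁, ha.ne.symm, ha.on₂, ha.on₁⟩
  -- no isometry places all four sides
  have hno : ∀ g : Iso2, Fits P (mb g h) → mv g i ∈ P → mv g j ∈ P → mv g k ∈ P → mv g l ∈ P →
      False := by
    intro g gf gi gj gk gl
    refine hunl.2 ⟨g, gf, ?_⟩
    intro s hs'
    rw [htch] at hs'
    simp only [Finset.mem_insert, Finset.mem_singleton] at hs'
    rcases hs' with rfl | rfl | rfl | rfl
    · exact gi
    · exact gj
    · exact gk
    · exact gl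
  -- slide `w` along `k`
  obtain ⟨g1, h1, s1, t1, l1, m1, f1, g1k, g1i, g1j⟩ := placed hvxx hlcx hslx E hsub hfit hl hs.wk
    hs.vi ⟨nkl, nik.symm, njk.symm, nil.symm, njl.symm, nij⟩ hv hlen'
    (sub4 tk ti tj) hak
  -- slide `v` along `i`
  obtain ⟨g2, h2, s2, t2, l2, m2, f2, g2i, g2k, g2l⟩ := placed hvxx hlcx hslx E hsub hfit hl hs.vi
    hs.wk ⟨nij, nik, nil, njk, njl, nkl⟩ hw hlen (sub4 ti tk tl) hai
  have gne : g1 ≠ g2 := by
    rintro rfl
    exact hno g1 f1 g1i g1j g1k g2l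
  have hX := E.pg.unit
  have K4 := hk4x Q P hX E.pg' gP
  have iQ := hs.vi.mem₁
  have jQ := hs.vi.mem₂
  have kQ := hs.wk.mem₁
  have lQ := hs.wk.mem₂
  have haj : ¬ Ac (w - v) j i := by
    intro hc
    obtain ⟨g3, h3, s3, t3, l3, m3, f3, g3j, g3k, g3l⟩ := placed hvxx hlcx hslx E hsub hfit hl
      (symm hs.vi) hs.wk ⟨nij.symm, njk, njl, nik, nil, nkl⟩ hw hlen (sub4 tj tk tl) hc
    have := (K4 g1 g2 g3 k i j l kQ iQ jQ lQ ⟨nik.symm, njk.symm, nkl, nij, nil, njl⟩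
      g1k g1i g1j g2k g2i g2l g3k g3j g3l).1
    exact gne this
  have hal : ¬ Ac (v - w) l k := by
    intro hc
    obtain ⟨g3, h3, s3, t3, l3, m3, f3, g3l, g3i, g3j⟩ := placed hvxx hlcx hslx E hsub hfit hl
      (symm hs.wk) hs.vi ⟨nkl.symm, nil.symm, njl.symm, nik.symm, njk.symm, nij⟩ hv hlen'
      (sub4 tl ti tj) hc
    have := (K4 g1 g2 g3 i k j l iQ kQ jQ lQ ⟨nik, nij, nil, njk.symm, nkl, njl⟩
      g1i g1k g1j g2i g2k g2l g3i g3j g3l).1
    exact gne this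
  have hex : mv g1 i = mv g2 k ∧ mv g1 k = mv g2 i :=
    (((hunx.2 Q P hX E.pg' gP g1 g2).1 i iQ k kQ nik g1i g1k g2i g2k).resolve_left gne)
  have hne : mv g1 j ≠ mv g2 l := by
    intro hjl
    -- the moved short bodies
    have M1 := H69.msy H72.act Q P g1 h1 m1
    have M2 := H69.msy H72.act Q P g2 h2 m2
    have tt1 : ∀ s ∈ ({k, i, j} : Finset HP), mv g1 s ∈ touch P (mb g1 h1) := fun s hs' =>
      touch_mv (t1 hs') (m1.mem s (t1 hs'))
    have tt2 : ∀ s ∈ ({i, k, l} : Finset HP), mv g2 s ∈ touch P (mb g2 h2) := fun s hs' =>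
      touch_mv (t2 hs') (m2.mem s (t2 hs'))
    have hS1 : ({mv g1 i, mv g1 j, mv g1 k} : Finset HP) ⊆ touch P (mb g1 h1) :=
      sub4 (tt1 i (by simp)) (tt1 j (by simp)) (tt1 k (by simp))
    have hS2 : ({mv g1 i, mv g1 j, mv g1 k} : Finset HP) ⊆ touch P (mb g2 h2) := by
      rw [hex.1, hex.2, hjl]
      exact sub4 (tt2 k (by simp)) (tt2 l (by simp)) (tt2 i (by simp))
    have hcard : ({mv g1 i, mv g1 j, mv g1 k} : Finset HP).card = 3 :=
      Finset.card_eq_three.2 ⟨_, _, _, fun e => nij (mv_injective g1 e),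
        fun e => nik (mv_injective g1 e), fun e => njk (mv_injective g1 e), rfl⟩
    have sb1 : Sublin (mb g1 h1) := sub_mb g1 s1.sub
    have sb2 : Sublin (mb g2 h2) := sub_mb g2 s2.sub
    have lb1 : lam (mb g1 h1) < L := by rw [lam_mb g1 s1.sub]; exact l1
    have lb2 : lam (mb g2 h2) < L := by rw [lam_mb g2 s2.sub]; exact l2
    have hm : Mat P Q g2⁻¹ (mb g1 h1) := (hlxx P Q L E.symm _ g2⁻¹ (mb g2 h2) (mb g1 h1) hcard hS2
      hS1 sb2 sb1 M2.1 m1.fits' lb2).1 lb1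
    have e := E.uq' g1⁻¹ g2⁻¹ {mv g1 i, mv g1 j, mv g1 k} (mb g1 h1)
      ⟨hcard, sb1, m1.fits', M1.1.fits', hS1, fun s hs' => M1.1.mem s (hS1 hs')⟩
      ⟨hcard, sb1, m1.fits', hm.fits', hS1, fun s hs' => hm.mem s (hS1 hs')⟩ lb1
    exact gne (inv_injective e)
  refine ⟨g1, g2, ?_⟩
  exact
    { sh := hs
      len := hl
      min := hmin
      unl := hunl
      gne := gne
      f1 := f1
      f2 := f2
      i1 := g1i
      j1 := g1j
      k1 := g1k
      k2 := g2k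
      l2 := g2l
      i2 := g2i
      ex := hex.1
      ex' := hex.2
      ne := hne
      ai := hai
      aj := haj
      ak := hak
      al := hal
      lt1 := ⟨h1, s1.sub, s1.fits, sub4 (t1 (by simp)) (t1 (by simp)) (t1 (by simp)), l1⟩
      lt2 := ⟨h2, s2.sub, s2.fits, sub4 (t2 (by simp)) (t2 (by simp)) (t2 (by simp)), l2⟩ }

/-- the four names of a diagonal -/
theorem sh3_swap1 {Q : Finset HP} {h : ℂ → ℝ} {i j k l : HP} {v w : ℂ}
    (hs : Sh3 Q h i j k l v w) : Sh3 Q h j i k l v w := by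
  obtain ⟨nij, nik, nil, njk, njl, nkl⟩ := hs.ne
  exact ⟨⟨hs.vi.cl, hs.vi.mem₂, hs.vi.mem₁, hs.vi.ne.symm, hs.vi.on₂, hs.vi.on₁⟩, hs.wk,
    ⟨nij.symm, njk, njl, nik, nil, nkl⟩, hs.body⟩

theorem sh3_swap2 {Q : Finset HP} {h : ℂ → ℝ} {i j k l : HP} {v w : ℂ}
    (hs : Sh3 Q h i j k l v w) : Sh3 Q h i j l k v w := by
  obtain ⟨nij, nik, nil, njk, njl, nkl⟩ := hs.ne
  exact ⟨hs.vi, ⟨hs.wk.cl, hs.wk.mem₂, hs.wk.mem₁, hs.wk.ne.symm, hs.wk.on₂, hs.wk.on₁⟩,
    ⟨nij, nil, nik, njl, njk, nkl.symm⟩, hs.body⟩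

end Pool.Agent.XQ.H33

namespace Pool.Agent.XQ

open Pool.Agent.AEU

/-- module QTX -/
theorem qtx (hvxx : VxxStatement) (hlcx : LcxStatement) (hlxx : LxxStatement)
    (hslx : SlxStatement) (hunx : UnxStatement) (hk4x : K4xStatement) : QtxStatement := by
  intro P Q L E gP h i j k l v w hs hmin hunl hl
  have main := fun {i j k l : HP} (hs : Sh3 Q h i j k l v w) =>
    H33.qtx_main hvxx hlcx hlxx hslx hunx hk4x E gP hs hmin hunl hl
  have a1 := H33.ac_or hvxx hslx E.pg hs.vi hs.wk hs.ne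
  obtain ⟨nij, nik, nil, njk, njl, nkl⟩ := hs.ne
  have a2 := H33.ac_or hvxx hslx E.pg hs.wk hs.vi ⟨nkl, nik.symm, njk.symm, nil.symm, njl.symm,
    nij⟩
  rcases a1 with a1 | a1
  · rcases a2 with a2 | a2
    · obtain ⟨g1, g2, hg⟩ := main hs a1 a2
      exact ⟨i, j, k, l, v, w, g1, g2, hg, rfl⟩
    · obtain ⟨g1, g2, hg⟩ := main (H33.sh3_swap2 hs) a1 a2
      exact ⟨i, j, l, k, v, w, g1, g2, hg, by rw [Finset.pair_comm]⟩
  · rcases a2 with a2 | a2
    · obtain ⟨g1, g2, hg⟩ := main (H33.sh3_swap1 hs) a1 a2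
      exact ⟨j, i, k, l, v, w, g1, g2, hg, Finset.insert_comm _ _ _⟩
    · obtain ⟨g1, g2, hg⟩ := main (H33.sh3_swap1 (H33.sh3_swap2 hs)) a1 a2
      exact ⟨j, i, l, k, v, w, g1, g2, hg, by rw [Finset.pair_comm, Finset.insert_comm]⟩

end Pool.Agent.XQ
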