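import Pool.Agent.Helper16_XQ.StmtD
import Pool.Agent.Helper61_Fine.Cross
import Pool.Agent.Helper61_Fine.Run
import Pool.Agent.Helper69_Fine.Extv
import Pool.Agent.Helper69_Fine.Vert
import Pool.Agent.Helper10_Fine.Core
import Pool.Agent.Helper16_Iso.Polygon
import Pool.Agent.Helper69_AEU.Body

/-!
Squad XQ (MP_5b0138_an), Part D, module QUA: the quadratic polynomial of an arbitrary convex
polygon.
-/

set_option autoImplicit false

namespace Pool.Agent.XQ.H33

open MeasureTheory Complex Filter Topology Pool.Agent.H16Iso Pool.Agent.H62T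
open Pool.Agent.H16F (Sublin ind CP Nm len qa)
open Pool.Agent.AEU

/-! ### Half-planes as linear functionals -/

/-- `ip u` as a linear map -/
noncomputable def ipL (u : ℂ) : ℂ →ₗ[ℝ] ℝ where
  toFun x := ip u x
  map_add' x y := H69.ip_add_right u x y
  map_smul' r x := by
    rw [Complex.real_smul]
    exact H69.ip_smul_right r u x

theorem ipL_apply (u x : ℂ) : ipL u x = ip u x := rfl

theorem ip_self_sq (u : ℂ) : ip u u = ‖u‖ ^ 2 := by
  rw [Complex.sq_norm, Complex.normSq_apply]
  rfl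

theorem ipL_ne {u : ℂ} (hu : ‖u‖ = 1) : ipL u ≠ 0 := by
  intro h
  have h1 : ipL u u = 0 := by rw [h]; rfl
  rw [ipL_apply, ip_self_sq, hu] at h1
  norm_num at h1

/-- a half-plane which contains the directions of another one -/
theorem dir_unique {s t : ℂ} (hs : ‖s‖ = 1) (ht : ‖t‖ = 1) {ε : ℝ} (hε : 0 < ε)
    (h : ∀ y : ℂ, ‖y‖ < ε → ip s y ≤ 0 → ip t y ≤ 0) : t = s := by
  have hall : ∀ y : ℂ, ip s y ≤ 0 → ip t y ≤ 0 := by
    intro y hy
    have hr : 0 < ε / (2 * (‖y‖ + 1)) := by positivity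
    have h1 : ‖((ε / (2 * (‖y‖ + 1)) : ℝ) : ℂ) * y‖ < ε := by
      rw [norm_mul, Complex.norm_of_nonneg hr.le, div_mul_eq_mul_div, div_lt_iff₀ (by positivity)]
      nlinarith [norm_nonneg y]
    have h2 := h _ h1 (by
      rw [H69.ip_smul_right]
      exact mul_nonpos_of_nonneg_of_nonpos hr.le hy)
    rw [H69.ip_smul_right] at h2
    by_contra hc
    push Not at hc
    exact absurd h2 (not_le.2 (mul_pos hr hc))
  have ess : ip s s = 1 := by rw [ip_self_sq, hs]; norm_num
  have ett : ip t t = 1 := by rw [ip_self_sq, ht]; norm_num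
  have comm : ip t s = ip s t := by unfold ip; ring
  have h1 := hall (t - ((ip s t : ℝ) : ℂ) * s) (by
    rw [H69.ip_sub_right, H69.ip_smul_right, ess]
    linarith)
  rw [H69.ip_sub_right, H69.ip_smul_right, ett, comm] at h1
  have h2 := H69.abs_ip_le s t
  rw [hs, ht] at h2
  have h3 := abs_le.1 h2
  have h4 : ip s t ^ 2 = 1 := by nlinarith
  have h5 : ip s t = 1 ∨ ip s t = -1 := by
    have : (ip s t - 1) * (ip s t + 1) = 0 := by nlinarith
    rcases mul_eq_zero.1 this with h | h
    · left; linarith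
    · right; linarith
  have h6 : ip s t = 1 := by
    rcases h5 with h5 | h5
    · exact h5
    · exfalso
      have h7 := hall (-s) (by rw [H69.ip_neg_right, ess]; norm_num)
      rw [H69.ip_neg_right, comm, h5] at h7
      norm_num at h7
  have h8 : ‖t - s‖ ^ 2 = 0 := by
    rw [← ip_self_sq, H69.ip_sub_left, H69.ip_sub_right, H69.ip_sub_right, ett, ess, comm, h6]
    ring
  have h9 : ‖t - s‖ = 0 := by
    rcases pow_eq_zero_iff (two_ne_zero) |>.1 h8 with h
    exact h
  exact sub_eq_zero.1 (norm_eq_zero.1 h9)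

/-- an irredundant side of one description is a side of the other one -/
theorem side_mem {X Y : Finset HP} (uX : ∀ s ∈ X, ‖s.1‖ = 1) (uY : ∀ s ∈ Y, ‖s.1‖ = 1)
    (hcl : Cl X = Cl Y) (hop : opn X = opn Y) {s : HP} (hs : s ∈ X) {p : ℂ}
    (hp : ip s.1 p = s.2) (hps : ∀ t ∈ X, t ≠ s → ip t.1 p < t.2) : s ∈ Y := by
  have hpX : p ∈ Cl X := by
    intro t ht
    by_cases e : t = s
    · rw [e, hp]
    · exact (hps t ht e).le
  have hpo : p ∉ opn Y := by
    rw [← hop]
    intro h
    exact absurd hp (h s hs).ne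
  have hpY : p ∈ Cl Y := by rw [← hcl]; exact hpX
  obtain ⟨t, ht, hpt⟩ : ∃ t ∈ Y, ip t.1 p = t.2 := by
    by_contra hc
    push Not at hc
    exact hpo fun t ht => lt_of_le_of_ne (hpY t ht) (hc t ht)
  have hev : ∀ᶠ y : ℂ in 𝓝 0, ∀ r ∈ X, r ≠ s → ip r.1 (p + y) < r.2 := by
    rw [Finset.eventually_all]
    intro r hr
    by_cases e : r = s
    · exact Eventually.of_forall fun y h => absurd e h
    · have hc : Continuous fun y : ℂ => ip r.1 (p + y) := by
        have : Continuous fun y : ℂ => ipL r.1 (p + y) :=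
          (lin_cont (ipL r.1)).comp (continuous_const.add continuous_id)
        exact this
      have h0 : ip r.1 (p + 0) < r.2 := by rw [add_zero]; exact hps r hr e
      exact ((hc.tendsto 0).eventually (gt_mem_nhds h0)).mono fun y hy _ => hy
  obtain ⟨ε, hε, hball⟩ := Metric.eventually_nhds_iff.1 hev
  have e1 : t.1 = s.1 := dir_unique (uX s hs) (uY t ht) hε (by
    intro y hy hsy
    have hy' : dist y 0 < ε := by rw [dist_zero_right]; exact hy
    have hmem : p + y ∈ Cl X := by
      intro r hr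
      by_cases e : r = s
      · rw [e, H69.ip_add_right, hp]
        linarith
      · exact (hball hy' r hr e).le
    rw [hcl] at hmem
    have := hmem t ht
    rw [H69.ip_add_right, hpt] at this
    linarith)
  have e2 : t.2 = s.2 := by rw [← hpt, e1, hp]
  have : t = s := Prod.ext e1 e2
  rwa [this] at ht

/-! ### The cyclic description of a polygon -/

theorem opn_nonempty {X : Finset HP} (hX : Pg X) : (opn X).Nonempty := by
  classical
  have h1 : ∀ s : HP, ∃ x : ℂ, s ∈ X → (ip s.1 x = s.2 ∧ ∀ t ∈ X, t ≠ s → ip t.1 x < t.2) := by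
    intro s
    by_cases hs : s ∈ X
    · obtain ⟨x, hx⟩ := hX.side s hs
      exact ⟨x, fun _ => hx⟩
    · exact ⟨0, fun h => absurd h hs⟩
  choose p hp using h1
  have hn : (0 : ℝ) < X.card := by
    have := hX.card
    exact_mod_cast (by omega : 0 < X.card)
  refine ⟨(((X.card : ℝ)⁻¹ : ℝ) : ℂ) * ∑ t ∈ X, p t, fun s hs => ?_⟩
  rw [H69.ip_smul_right, ← ipL_apply, map_sum]
  have h2 : ∑ t ∈ X, ipL s.1 (p t) < ∑ _t ∈ X, s.2 := by
    obtain ⟨t, ht, hts⟩ : ∃ t ∈ X, t ≠ s := by
      have := hX.card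
      exact Finset.exists_mem_ne (by omega) s
    refine Finset.sum_lt_sum (fun r hr => ?_) ⟨t, ht, ?_⟩
    · rw [ipL_apply]
      by_cases e : s = r
      · rw [← e]
        exact ((hp s) hs).1.le
      · exact (((hp r) hr).2 s hs e).le
    · rw [ipL_apply]
      exact ((hp t) ht).2 s hs hts.symm
  rw [Finset.sum_const, nsmul_eq_mul] at h2
  calc (X.card : ℝ)⁻¹ * ∑ t ∈ X, ipL s.1 (p t) < (X.card : ℝ)⁻¹ * (X.card * s.2) :=
        mul_lt_mul_of_pos_left h2 (inv_pos.2 hn)
    _ = s.2 := by field_simp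

theorem opn_setOf (X : Finset HP) :
    opn X = {z : ℂ | ∀ j : {s // s ∈ X}, ipL j.1.1 z < j.1.2} := by
  ext z
  exact ⟨fun h j => h j.1 j.2, fun h s hs => h ⟨s, hs⟩⟩

theorem cl_setOf (X : Finset HP) :
    Cl X = {z : ℂ | ∀ j : {s // s ∈ X}, ipL j.1.1 z ≤ j.1.2} := by
  ext z
  exact ⟨fun h j => h j.1 j.2, fun h s hs => h ⟨s, hs⟩⟩

theorem closure_opn {X : Finset HP} (hne : (opn X).Nonempty) : closure (opn X) = Cl X := by
  rw [opn_setOf] at hne ⊢
  rw [closure_open_halfspaces hne, cl_setOf]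

/-- the middle of a side -/
theorem mid_side {n : ℕ} [NeZero n] {u : Fin n → ℂ} {H β : Fin n → ℝ} (C : CP u H β) (i : Fin n) :
    ∃ p : ℂ, ip (u i) p = H i ∧ ∀ j, j ≠ i → ip (u j) p < H j := by
  have N := C.toNm
  have h3 : 3 ≤ n := H16F.H61.three_le N
  have hle : ∀ j l, ip (u j) (H16F.H69.vx u H β l) ≤ H j := by
    intro j l
    by_cases h1 : l = j
    · rw [h1, H16F.H69.ip_vx N]
    by_cases h2 : l = j + 1
    · rw [h2, H16F.H69.ip_vx_succ N]
    exact (H16F.H69.vx_lt' C j l h1 h2).le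
  refine ⟨((1 / 2 : ℝ) : ℂ) * H16F.H69.vx u H β i + ((1 / 2 : ℝ) : ℂ) * H16F.H69.vx u H β (i + 1),
    ?_, fun j hj => ?_⟩
  · rw [H16F.H69.ip_lin, H16F.H69.ip_vx N, H16F.H69.ip_vx_succ N]
    ring
  · rw [H16F.H69.ip_lin]
    by_cases h1 : i = j + 1
    · have h2 : ip (u j) (H16F.H69.vx u H β (i + 1)) < H j := by
        refine H16F.H69.vx_lt' C j (i + 1) ?_ ?_
        · rw [h1]
          intro h
          have h4 : (1 : Fin n) + 1 = 0 := by
            have h5 : j + (1 + 1) = j + 0 := by rw [add_zero, ← add_assoc]; exact h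
            exact add_left_cancel h5
          have h6 := congrArg Fin.val h4
          rw [Fin.val_add, Fin.val_one', Nat.mod_eq_of_lt (by omega : 1 < n),
            Nat.mod_eq_of_lt (by omega : 1 + 1 < n)] at h6
          simp at h6
        · rw [h1]
          exact H16F.H61.succ_ne h3 _
      have h3 := hle j i
      linarith
    · have h2 : ip (u j) (H16F.H69.vx u H β i) < H j := H16F.H69.vx_lt' C j i hj.symm h1
      have h3 := hle j (i + 1)
      linarith

/-- every polygon has a cyclic description -/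
theorem exists_cp {X : Finset HP} (hX : Pg X) : ∃ (n : ℕ) (_ : NeZero n) (u : Fin n → ℂ)
    (H β : Fin n → ℝ), CP u H β ∧ (∀ i, (u i, H i) ∈ X) ∧ ∀ s ∈ X, ∃ i, s = (u i, H i) := by
  classical
  have hne := opn_nonempty hX
  have hbd : Bornology.IsBounded (opn X) := hX.bdd.subset fun x hx s hs => (hx s hs).le
  have hpoly : IsConvexPolygon (opn X) := by
    have h1 := hne
    have h2 := hbd
    rw [opn_setOf] at h1 h2 ⊢
    exact isConvexPolygon_of_halfspaces (fun j => ipL_ne (hX.unit _ j.2)) h1 h2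
  obtain ⟨n, hn, u, H, β, C, e⟩ := H16F.H69.exq _ hpoly
  have N := C.toNm
  have hopS : opn (sides u H) = opn X := by
    rw [e]
    ext x
    constructor
    · intro h i
      exact h (u i, H i) (Finset.mem_image_of_mem _ (Finset.mem_univ i))
    · intro h s hs
      obtain ⟨i, -, rfl⟩ := Finset.mem_image.1 hs
      exact h i
  have hclS : Cl (sides u H) = Cl X := by
    rw [← closure_opn hne, ← closure_opn (by rw [hopS]; exact hne), hopS]
  have uS : ∀ s ∈ sides u H, ‖s.1‖ = 1 := by
    intro s hs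
    obtain ⟨i, -, rfl⟩ := Finset.mem_image.1 hs
    exact N.unit i
  refine ⟨n, hn, u, H, β, C, fun i => ?_, fun s hs => ?_⟩
  · obtain ⟨p, hp, hps⟩ := mid_side C i
    refine side_mem (s := (u i, H i)) uS hX.unit hclS hopS
      (Finset.mem_image_of_mem _ (Finset.mem_univ i)) (p := p) hp ?_
    intro t ht hne'
    obtain ⟨j, -, rfl⟩ := Finset.mem_image.1 ht
    refine hps j ?_
    rintro rfl
    exact hne' rfl
  · obtain ⟨p, hp, hps⟩ := hX.side s hs
    have h1 := side_mem hX.unit uS hclS.symm hopS.symm hs hp hps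
    obtain ⟨i, -, hi⟩ := Finset.mem_image.1 h1
    exact ⟨i, hi.symm⟩

/-! ### Quadratic polynomials -/

/-- quadratic polynomials in the support numbers -/
def QF (X : Finset HP) (F : (ℂ → ℝ) → ℝ) : Prop :=
  ∃ (w0 : ℝ) (w1 : HP → ℝ) (w2 : HP → HP → ℝ), ∀ h : ℂ → ℝ,
    F h = w0 + ∑ s ∈ X, w1 s * h s.1 + ∑ s ∈ X, ∑ r ∈ X, w2 s r * (h s.1 * h r.1)

theorem QF.const (X : Finset HP) (c : ℝ) : QF X fun _ => c :=
  ⟨c, 0, 0, fun h => by simp⟩

theorem QF.add {X : Finset HP} {F G : (ℂ → ℝ) → ℝ} (hF : QF X F) (hG : QF X G) :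
    QF X fun h => F h + G h := by
  obtain ⟨a0, a1, a2, ha⟩ := hF
  obtain ⟨b0, b1, b2, hb⟩ := hG
  refine ⟨a0 + b0, fun s => a1 s + b1 s, fun s r => a2 s r + b2 s r, fun h => ?_⟩
  simp only [ha, hb, add_mul, Finset.sum_add_distrib]
  ring

theorem QF.const_mul {X : Finset HP} {F : (ℂ → ℝ) → ℝ} (hF : QF X F) (c : ℝ) :
    QF X fun h => c * F h := by
  obtain ⟨a0, a1, a2, ha⟩ := hF
  refine ⟨c * a0, fun s => c * a1 s, fun s r => c * a2 s r, fun h => ?_⟩
  simp only [ha, mul_add, Finset.mul_sum, mul_assoc]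

theorem QF.sum {X : Finset HP} {ι : Type} (T : Finset ι) (F : ι → (ℂ → ℝ) → ℝ)
    (hF : ∀ i ∈ T, QF X (F i)) : QF X fun h => ∑ i ∈ T, F i h := by
  classical
  induction T using Finset.induction_on with
  | empty => simpa using QF.const X 0
  | insert a T ha ih =>
    have h1 := (hF a (Finset.mem_insert_self _ _)).add
      (ih fun i hi => hF i (Finset.mem_insert_of_mem hi))
    simpa only [Finset.sum_insert ha] using h1

theorem QF.lin {X : Finset HP} {s : HP} (hs : s ∈ X) : QF X fun h => h s.1 := by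
  classical
  refine ⟨0, fun t => if t = s then 1 else 0, 0, fun h => ?_⟩
  simp [hs]

theorem QF.quad {X : Finset HP} {s r : HP} (hs : s ∈ X) (hr : r ∈ X) :
    QF X fun h => h s.1 * h r.1 := by
  classical
  refine ⟨0, 0, fun t t' => if t = s then (if t' = r then 1 else 0) else 0, fun h => ?_⟩
  simp only [Pi.zero_apply, zero_mul, Finset.sum_const_zero, add_zero, zero_add, ite_mul, one_mul]
  rw [Finset.sum_eq_single s]
  · simp [hr]
  · intro b _ hb
    simp [hb]
  · intro h
    exact absurd hs h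

end Pool.Agent.XQ.H33

namespace Pool.Agent.XQ

open MeasureTheory Complex Filter Topology Pool.Agent.H16Iso Pool.Agent.H62T
open Pool.Agent.H16F (Sublin ind CP Nm len qa)
open Pool.Agent.AEU

/-- module QUA -/
theorem qua : QuaStatement := by
  intro X hX
  obtain ⟨n, hn, u, H, β, C, hmem, hex⟩ := H33.exists_cp hX
  have N := C.toNm
  refine ⟨fun h => qa β fun i => H i - h (u i), ?_, ?_⟩
  · -- form
    have h1 : ∀ i ∈ (Finset.univ : Finset (Fin n)), H33.QF X fun h =>
        H16F.q (β i) (H i - h (u i)) (H (i + 1) - h (u (i + 1))) := by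
      intro i _
      have a := H33.QF.lin (hmem i)
      have b := H33.QF.lin (hmem (i + 1))
      have aa := H33.QF.quad (hmem i) (hmem i)
      have ab := H33.QF.quad (hmem i) (hmem (i + 1))
      have bb := H33.QF.quad (hmem (i + 1)) (hmem (i + 1))
      have c := H33.QF.const X (H16F.q (β i) (H i) (H (i + 1)))
      have hs : Real.sin (β i) ≠ 0 := (H16F.H69.sin_pos N i).ne'
      have key := ((((c.add (a.const_mul
        ((-2 * H (i + 1) + 2 * H i * Real.cos (β i)) / (2 * Real.sin (β i))))).add (b.const_mul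
        ((-2 * H i + 2 * H (i + 1) * Real.cos (β i)) / (2 * Real.sin (β i))))).add (ab.const_mul
        (2 / (2 * Real.sin (β i))))).add (aa.const_mul
        (-Real.cos (β i) / (2 * Real.sin (β i))))).add (bb.const_mul
        (-Real.cos (β i) / (2 * Real.sin (β i))))
      obtain ⟨w0, w1, w2, hw⟩ := key
      refine ⟨w0, w1, w2, fun h => ?_⟩
      rw [← hw]
      simp only [H16F.q]
      field_simp
      ring
    exact H33.QF.sum Finset.univ _ h1
  · -- small bodies
    have hev : ∀ᶠ k : Fin n → ℝ in 𝓝 0, ∀ i, 0 < len β (fun j => H j - k j) i := by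
      rw [Filter.eventually_all]
      intro i
      have hc : Continuous fun k : Fin n → ℝ => len β (fun j => H j - k j) i := by
        unfold H16F.len
        fun_prop
      have h0 : 0 < len β (fun j => H j - (0 : Fin n → ℝ) j) i := by
        simpa using C.side i
      exact (hc.tendsto 0).eventually (lt_mem_nhds h0)
    obtain ⟨ε, hε, hball⟩ := Metric.eventually_nhds_iff.1 hev
    refine ⟨ε / 2, by positivity, fun h _ hh => ?_⟩
    have h1 : ∀ i, 0 < len β (fun j => H j - h (u j)) i := by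
      refine hball (y := fun j => h (u j)) ?_
      rw [dist_zero_right]
      refine lt_of_le_of_lt ((pi_norm_le_iff_of_nonneg (by positivity : 0 ≤ ε / 2)).2 fun i => ?_)
        (by linarith)
      exact hh _ (hmem i)
    rw [← H16F.H10.area_eq H16F.H61.run H16F.H61.zero N h1]
    unfold VX H16F.Ar
    congr 2
    ext x
    constructor
    · intro hx i
      exact hx _ (hmem i)
    · intro hx s hs
      obtain ⟨i, rfl⟩ := hex s hs
      exact hx i

end Pool.Agent.XQ
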