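import Pool.Agent.Helper16_XQ.StmtD
import Pool.Agent.Helper62_AEU.LD

/-!
Squad XQ (MP_5b0138_an), Part D, module TRX: long loops do not contribute.
-/

set_option autoImplicit false

namespace Pool.Agent.XQ.H33

open MeasureTheory Complex Filter Topology ProbabilityTheory Pool.Agent.H16Iso Pool.Agent.H62T
open Pool.Agent.H16F (Sublin ind)
open Pool.Agent.AEU
open Pool.Agent.H62T.H9 (AM)
open Pool.Agent.AEU.H35 (momS Lap_small)

/-- size of the body in the directions of `U` -/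
noncomputable def szU (U : Finset ℂ) (h : ℂ → ℝ) : ℝ := (1 + ∑ u ∈ U, |h u|) ^ 2

lemma szU_nonneg (U : Finset ℂ) (h : ℂ → ℝ) : 0 ≤ szU U h := sq_nonneg _

lemma am_szU (U : Finset ℂ) (C : ℝ) : AM fun ω => C * szU U (hs ω) :=
  (((AM.const 1).add (AM.sum _ fun s _ => H16F.H10.am_abs (AM.hs momS s))).pow 2).const_mul C

lemma szU_near (U : Finset ℂ) (ω : Sp) {t : ℝ} (h1 : t ≤ 1) :
    szU U (fun u => Real.sqrt t * hs ω u) ≤ szU U (hs ω) := by
  unfold szU
  have h0 : 0 ≤ ∑ s ∈ U, |Real.sqrt t * hs ω s| := Finset.sum_nonneg fun i _ => abs_nonneg _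
  have h2 : ∑ s ∈ U, |Real.sqrt t * hs ω s| ≤ ∑ s ∈ U, |hs ω s| := by
    refine Finset.sum_le_sum fun s _ => ?_
    rw [abs_mul, abs_of_nonneg (Real.sqrt_nonneg _)]
    exact mul_le_of_le_one_left (abs_nonneg _) (Real.sqrt_le_one.2 h1)
  gcongr

lemma szU_far (U : Finset ℂ) (ω : Sp) {t : ℝ} (h1 : 1 ≤ t) :
    szU U (fun u => Real.sqrt t * hs ω u) ≤ t * szU U (hs ω) := by
  unfold szU
  have ht : 0 ≤ t := by linarith
  have e : ∑ s ∈ U, |Real.sqrt t * hs ω s| = Real.sqrt t * ∑ s ∈ U, |hs ω s| := by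
    rw [Finset.mul_sum]
    refine Finset.sum_congr rfl fun s _ => ?_
    rw [abs_mul, abs_of_nonneg (Real.sqrt_nonneg _)]
  rw [e]
  have h2 : 1 ≤ Real.sqrt t := Real.one_le_sqrt.2 h1
  have h0 : 0 ≤ ∑ s ∈ U, |hs ω s| := Finset.sum_nonneg fun i _ => abs_nonneg _
  have h3 : 1 + Real.sqrt t * ∑ s ∈ U, |hs ω s| ≤ Real.sqrt t * (1 + ∑ s ∈ U, |hs ω s|) := by
    linarith
  calc (1 + Real.sqrt t * ∑ s ∈ U, |hs ω s|) ^ 2
      ≤ (Real.sqrt t * (1 + ∑ s ∈ U, |hs ω s|)) ^ 2 := by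
        refine pow_le_pow_left₀ (by positivity) h3 2
    _ = _ := by rw [mul_pow, Real.sq_sqrt ht]

/-- module TRX -/
theorem trx0 : TrxStatement := by
  intro L A C U f hL hA hf
  have hA0 : 0 < A := lt_of_le_of_lt hL hA
  have hC0 : 0 ≤ |C| := abs_nonneg C
  refine Lap_small hL hA ?_ ?_
  · intro ε hε hε1
    have hAt : ∀ ε : ℝ, 0 < ε → ε < 1 → ∃ C : ℝ, ∀ t : ℝ, 0 < t → t ≤ 1 →
        PP {ω | A ≤ Real.sqrt t * lam (hs ω)} ≤
          ENNReal.ofReal (C * Real.exp (-((1 - ε) * (A / 2) ^ 2 / t))) := by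
      intro ε h0 h1
      obtain ⟨C, hC⟩ := AEU62.ld ε h0 h1
      refine ⟨C, fun t ht _ => ?_⟩
      have hst : 0 < Real.sqrt t := Real.sqrt_pos.2 ht
      have e1 : {ω | A ≤ Real.sqrt t * lam (hs ω)} = {ω | A / Real.sqrt t ≤ lam (hs ω)} := by
        ext ω
        show A ≤ Real.sqrt t * lam (hs ω) ↔ A / Real.sqrt t ≤ lam (hs ω)
        rw [div_le_iff₀ hst, mul_comm]
      have e2 : (1 - ε) * (A / 2) ^ 2 / t = (1 - ε) * (A / Real.sqrt t) ^ 2 / 4 := by
        rw [div_pow, div_pow, Real.sq_sqrt ht.le]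
        ring
      rw [e1, e2]
      exact hC _ (by positivity)
    obtain ⟨C', -, hC'⟩ := H16F.H10.tail_int (am_szU U |C|)
      (fun ω => mul_nonneg hC0 (szU_nonneg _ _)) hAt ε hε hε1
    refine ⟨C', fun t ht ht1 => ?_⟩
    have h1 := hC' t ht ht1 (f t) (by
      filter_upwards [hf t ht] with ω hω
      by_cases hA' : A ≤ Real.sqrt t * lam (hs ω)
      · rw [H16F.H10.ind_pos hA', mul_one]
        have h3 := szU_near U ω ht1
        calc |f t ω| ≤ C * szU U (fun u => Real.sqrt t * hs ω u) := hω.1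
          _ ≤ |C| * szU U (fun u => Real.sqrt t * hs ω u) :=
              mul_le_mul_of_nonneg_right (le_abs_self C) (szU_nonneg _ _)
          _ ≤ |C| * szU U (hs ω) := mul_le_mul_of_nonneg_left h3 hC0
      · rw [hω.2 (not_le.1 hA'), abs_zero]
        exact mul_nonneg (mul_nonneg hC0 (szU_nonneg _ _)) (H16F.H10.ind_nonneg _))
    refine h1.trans (le_of_eq ?_)
    congr 2
    field_simp
    ring
  · refine ⟨∫ ω, |C| * szU U (hs ω) ∂PP, fun t ht => ?_⟩
    have hi : Integrable (fun ω => |C| * szU U (hs ω) * t) PP :=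
      (am_szU U |C|).integrable.mul_const t
    have h1 := norm_integral_le_of_norm_le (f := f t) hi (by
      filter_upwards [hf t (by linarith)] with ω hω
      rw [Real.norm_eq_abs]
      have h3 := szU_far U ω ht
      calc |f t ω| ≤ C * szU U (fun u => Real.sqrt t * hs ω u) := hω.1
        _ ≤ |C| * szU U (fun u => Real.sqrt t * hs ω u) :=
            mul_le_mul_of_nonneg_right (le_abs_self C) (szU_nonneg _ _)
        _ ≤ |C| * (t * szU U (hs ω)) := mul_le_mul_of_nonneg_left h3 hC0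
        _ = |C| * szU U (hs ω) * t := by ring)
    rw [Real.norm_eq_abs, integral_mul_const] at h1
    exact h1

end Pool.Agent.XQ.H33

namespace Pool.Agent.XQ

/-- module TRX -/
theorem trx : TrxStatement := H33.trx0

end Pool.Agent.XQ
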