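import Pool.Agent.Helper16_XQ.StmtG
import Pool.Agent.Helper44_AEU.Uni
import Pool.Agent.Helper72_AEU.ACT

/-!
Squad XQ (MP_5b0138_an), Part G, modules UNX and K4X: uniqueness of isometries into a generic
polygon.
-/

set_option autoImplicit false

namespace Pool.Agent.XQ.H33

open MeasureTheory Complex Filter Topology Pool.Agent.H62T
open Pool.Agent.H16F (Sublin)
open Pool.Agent.AEU
open Pool.Agent.AEU.H44 (mv_inj iso_ext decomp eq_of_ip)

theorem unx1 (hact : ActStatement) (g g' : Iso2) (s t : HP) (hd : dt s.1 t.1 ≠ 0)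
    (h1 : mv g s = mv g' s) (h2 : mv g t = mv g' t) : g = g' := by
  have e1 : g.linearIsometryEquiv s.1 = g'.linearIsometryEquiv s.1 := congrArg Prod.fst h1
  have e2 : g.linearIsometryEquiv t.1 = g'.linearIsometryEquiv t.1 := congrArg Prod.fst h2
  have e3 : s.2 + ip (g.linearIsometryEquiv s.1) (g 0)
      = s.2 + ip (g'.linearIsometryEquiv s.1) (g' 0) := congrArg Prod.snd h1
  have e4 : t.2 + ip (g.linearIsometryEquiv t.1) (g 0)
      = t.2 + ip (g'.linearIsometryEquiv t.1) (g' 0) := congrArg Prod.snd h2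
  have hlin : ∀ x, g.linearIsometryEquiv x = g'.linearIsometryEquiv x := by
    intro x
    rw [decomp s.1 t.1 x hd, map_add, map_add, map_smul, map_smul, map_smul, map_smul, e1, e2]
  apply iso_ext g g' hlin
  have hd' : dt (g.linearIsometryEquiv s.1) (g.linearIsometryEquiv t.1) ≠ 0 := by
    have := hact.2.2.2.2.2.2.2.2.1 g s t
    intro h0
    unfold mv at this
    simp only [h0, abs_zero] at this
    exact hd (abs_eq_zero.mp this.symm)
  rw [← e1] at e3
  rw [← e2] at e4
  exact eq_of_ip _ _ _ _ hd' (by linarith) (by linarith)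

theorem unx2 (hact : ActStatement) (X P : Finset HP) (hX : ∀ s ∈ X, ‖s.1‖ = 1)
    (gP : G1 P) (g g' : Iso2) (s t : HP) (hs : s ∈ X) (ht : t ∈ X) (hst : s ≠ t)
    (h1 : mv g s ∈ P) (h2 : mv g t ∈ P) (h3 : mv g' s ∈ P) (h4 : mv g' t ∈ P) :
    g = g' ∨ (mv g s = mv g' t ∧ mv g t = mv g' s) := by
  have hip := hact.2.2.2.2.2.2.2.1
  have n1 : mv g s ≠ mv g t := fun h => hst (mv_inj hact g s t h)
  have n2 : mv g' s ≠ mv g' t := fun h => hst (mv_inj hact g' s t h)
  rcases gP.inj _ h1 _ h2 _ h3 _ h4 n1 n2 (by rw [hip, hip]) with h | h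
  · left
    have hlt : |ip s.1 t.1| < 1 := by
      rw [← hip g s t]
      exact gP.lt1 _ h1 _ h2 n1
    exact unx1 hact g g' s t (H44.dt_ne_zero s.1 t.1 (hX s hs) (hX t ht) hlt) h.1 h.2
  · right
    exact h

/-- module UNX -/
theorem unx0 (hact : ActStatement) : UnxStatement := by
  refine ⟨fun g g' s t _ _ hst h1 h2 => unx1 hact g g' s t hst h1 h2, ?_⟩
  intro X P hX _ gP g g'
  refine ⟨fun s hs t ht hst h1 h2 h3 h4 =>
    unx2 hact X P hX gP g g' s t hs ht hst h1 h2 h3 h4, ?_⟩
  intro S hSX hS h1 h2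
  obtain ⟨a, ha, b, hb, c, hc, hab, hac, hbc⟩ := Finset.two_lt_card.mp (by omega : 2 < S.card)
  rcases unx2 hact X P hX gP g g' a b (hSX ha) (hSX hb) hab (h1 a ha) (h1 b hb) (h2 a ha)
    (h2 b hb) with h | h
  · exact h
  rcases unx2 hact X P hX gP g g' a c (hSX ha) (hSX hc) hac (h1 a ha) (h1 c hc) (h2 a ha)
    (h2 c hc) with h' | h'
  · exact h'
  exact absurd (mv_inj hact g' b c (h.1.symm.trans h'.1)) hbc

/-- for unit numbers `a² + b² = 2 (a · b) a b` -/
theorem sq_add_sq (a b : ℂ) (ha : ‖a‖ = 1) (hb : ‖b‖ = 1) :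
    a ^ 2 + b ^ 2 = 2 * (ip a b : ℂ) * (a * b) := by
  have h1 : a.re ^ 2 + a.im ^ 2 = 1 := by
    have := Complex.sq_norm a
    rw [ha, Complex.normSq_apply] at this
    nlinarith
  have h2 : b.re ^ 2 + b.im ^ 2 = 1 := by
    have := Complex.sq_norm b
    rw [hb, Complex.normSq_apply] at this
    nlinarith
  apply Complex.ext
  · simp only [pow_two, Complex.add_re, Complex.mul_re, Complex.re_ofNat, Complex.im_ofNat,
      Complex.ofReal_re, Complex.ofReal_im, Complex.mul_im]
    unfold ip
    linear_combination (b.im ^ 2 - b.re ^ 2) * h1 + (a.im ^ 2 - a.re ^ 2) * h2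
  · simp only [pow_two, Complex.add_im, Complex.mul_re, Complex.re_ofNat, Complex.im_ofNat,
      Complex.ofReal_re, Complex.ofReal_im, Complex.mul_im]
    unfold ip
    linear_combination (-2 * b.re * b.im) * h1 + (-2 * a.re * a.im) * h2

/-- equal scalar products of unit numbers -/
theorem ip_eq (a b c d : ℂ) (ha : ‖a‖ = 1) (hb : ‖b‖ = 1) (hc : ‖c‖ = 1) (hd : ‖d‖ = 1)
    (h : ip a b = ip c d) : a * d = b * c ∨ a * c = b * d := by
  have h1 := sq_add_sq a b ha hb
  have h2 := sq_add_sq c d hc hd
  rw [h] at h1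
  have h3 : (a * d - b * c) * (a * c - b * d) = 0 := by
    linear_combination (c * d) * h1 - (a * b) * h2
  rcases mul_eq_zero.mp h3 with h4 | h4
  · left
    exact sub_eq_zero.mp h4
  · right
    exact sub_eq_zero.mp h4

/-- equal squares: parallel -/
theorem ip_of_sq (a b : ℂ) (ha : ‖a‖ = 1) (h : a ^ 2 = b ^ 2) : |ip a b| = 1 := by
  have h1 : a.re ^ 2 + a.im ^ 2 = 1 := by
    have := Complex.sq_norm a
    rw [ha, Complex.normSq_apply] at this
    nlinarith
  rcases sq_eq_sq_iff_eq_or_eq_neg.mp h.symm with h2 | h2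
  · rw [h2]
    unfold ip
    rw [show a.re * a.re + a.im * a.im = 1 by linear_combination h1, abs_one]
  · rw [h2]
    unfold ip
    rw [Complex.neg_re, Complex.neg_im,
      show a.re * -a.re + a.im * -a.im = -1 by linear_combination -h1, abs_neg, abs_one]

/-- module K4X -/
theorem k4x0 (hact : ActStatement) (hunx : UnxStatement) : K4xStatement := by
  intro X P hX hP gP g g' g'' a b c d ha hb hc hd hne ga gb gc ga' gb' gd' ga'' gc'' gd''
  obtain ⟨hab, hac, had, hbc, hbd, hcd⟩ := hne
  have hip := hact.2.2.2.2.2.2.2.1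
  have U := fun g g' => (hunx.2 X P hX hP gP g g').1
  have I := fun g s t => mv_inj hact g s t
  rcases U g g' a ha b hb hab ga gb ga' gb' with h | h
  · subst h
    refine ⟨rfl, ?_⟩
    rcases U g g'' a ha c hc hac ga gc ga'' gc'' with h | h
    · exact h
    rcases U g g'' a ha d hd had ga gd' ga'' gd'' with h' | h'
    · exact h'
    exact absurd (I g'' c d (h.1.symm.trans h'.1)) hcd
  · exfalso
    rcases U g g'' a ha c hc hac ga gc ga'' gc'' with h' | h'
    · subst h'
      rcases U g' g a ha d hd had ga' gd' ga gd'' with h'' | h''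
      · subst h''
        exact hab (I g' a b h.1)
      · exact hbd (I g b d (h.2.trans h''.1))
    · rcases U g' g'' a ha d hd had ga' gd' ga'' gd'' with h'' | h''
      · subst h''
        exact hbc (I g' b c (h.1.symm.trans h'.1))
      · have e1 : ip a.1 b.1 = ip c.1 d.1 := by
          rw [← hip g a b, h.1, h.2, ← hip g'' c d, ← h'.1, ← h''.1, h.1]
        have e2 : ip a.1 c.1 = ip b.1 d.1 := by
          rw [← hip g a c, ← hip g' b d, ← h.1, h''.2, h'.2]
        have e3 : ip a.1 d.1 = ip b.1 c.1 := by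
          rw [← hip g' a d, ← hip g b c, ← h.2, h''.2, h'.2]
        have ua := hX a ha
        have ub := hX b hb
        have uc := hX c hc
        have ud := hX d hd
        have nz : ∀ z : ℂ, ‖z‖ = 1 → z ≠ 0 := by
          intro z hz h0
          rw [h0, norm_zero] at hz
          exact zero_ne_one hz
        have za := nz _ ua
        have zb := nz _ ub
        have zc := nz _ uc
        have zd := nz _ ud
        have l1 : |ip a.1 b.1| < 1 := by
          rw [← hip g a b]
          exact gP.lt1 _ ga _ gb fun e => hab (I g a b e)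
        have l2 : |ip a.1 c.1| < 1 := by
          rw [← hip g a c]
          exact gP.lt1 _ ga _ gc fun e => hac (I g a c e)
        have l3 : |ip a.1 d.1| < 1 := by
          rw [← hip g' a d]
          exact gP.lt1 _ ga' _ gd' fun e => had (I g' a d e)
        have c12 : a.1 * d.1 = b.1 * c.1 → a.1 * c.1 = b.1 * d.1 → False := by
          intro r1 r2
          have : (a.1 ^ 2 - b.1 ^ 2) * (c.1 * d.1) = 0 := by
            linear_combination (a.1 * c.1) * r1 + (b.1 * c.1) * r2
          have h0 := (mul_eq_zero.mp this).resolve_right (mul_ne_zero zc zd)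
          rw [ip_of_sq a.1 b.1 ua (sub_eq_zero.mp h0)] at l1
          exact lt_irrefl _ l1
        have c13 : a.1 * d.1 = b.1 * c.1 → a.1 * b.1 = c.1 * d.1 → False := by
          intro r1 r3
          have : (a.1 ^ 2 - c.1 ^ 2) * (b.1 * d.1) = 0 := by
            linear_combination (a.1 * b.1) * r1 + (b.1 * c.1) * r3
          have h0 := (mul_eq_zero.mp this).resolve_right (mul_ne_zero zb zd)
          rw [ip_of_sq a.1 c.1 ua (sub_eq_zero.mp h0)] at l2
          exact lt_irrefl _ l2
        have c23 : a.1 * c.1 = b.1 * d.1 → a.1 * b.1 = c.1 * d.1 → False := by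
          intro r2 r3
          have : (a.1 ^ 2 - d.1 ^ 2) * (b.1 * c.1) = 0 := by
            linear_combination (a.1 * b.1) * r2 + (b.1 * d.1) * r3
          have h0 := (mul_eq_zero.mp this).resolve_right (mul_ne_zero zb zc)
          rw [ip_of_sq a.1 d.1 ua (sub_eq_zero.mp h0)] at l3
          exact lt_irrefl _ l3
        rcases ip_eq _ _ _ _ ua ub uc ud e1 with r | r
        · rcases ip_eq _ _ _ _ ua ud ub uc e3 with s | s
          · exact c12 r (by linear_combination s)
          · exact c13 r (by linear_combination s)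
        · rcases ip_eq _ _ _ _ ua uc ub ud e2 with s | s
          · exact c12 (by linear_combination s) r
          · exact c23 r (by linear_combination s)

end Pool.Agent.XQ.H33

namespace Pool.Agent.XQ

open Pool.Agent.AEU

/-- module UNX -/
theorem unx : UnxStatement := H33.unx0 H72.act

/-- module K4X -/
theorem k4x (hunx : UnxStatement) : K4xStatement := H33.k4x0 H72.act hunx

end Pool.Agent.XQ
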