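import Pool.Agent.Helper33_XQ.Slide

/-!
Squad XQ (MP_5b0138_an), Part G, module UQL: placements of bodies of length at most `L` are
unique.
-/

set_option autoImplicit false

namespace Pool.Agent.XQ.H33

open MeasureTheory Complex Filter Topology Pool.Agent.H62T
open Pool.Agent.H16F (Sublin)
open Pool.Agent.AEU
open Pool.Agent.AEU.H69 (mem_touch mixS hul)

/-- all touched sides of `k = g h` come from `P`: the bodies `mix τ h h1` for small `τ` -/
theorem claim_mix {P Q : Finset HP} {L : ℝ} {g : Iso2} {S : Finset HP} {h h1 : ℂ → ℝ}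
    (W : WP P Q g S h) (hl : lam h ≤ L) (sub1 : Sublin h1) (fit1 : Fits P h1)
    (t1 : S ⊆ touch P h1) (l1 : lam h1 < L) (hback : ∀ s ∈ touch Q (mb g h), mv g⁻¹ s ∈ P) :
    ∃ m, WP P Q g S m ∧ lam m < L := by
  have hmb := H72.act.2.2.2.2.2.2.2.2.2.2.2.1
  -- small `τ`
  have hev : ∀ᶠ τ in 𝓝[>] (0 : ℝ), ∀ s ∈ Q, s ∉ touch Q (mb g h) →
      mix τ (mb g h) (mb g h1) s.1 < s.2 := by
    rw [Finset.eventually_all]
    intro s hs
    by_cases hst : s ∈ touch Q (mb g h)
    · exact Eventually.of_forall fun _ hn => absurd hst hn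
    · have hlt : mb g h s.1 < s.2 := lt_of_le_of_ne (W.fits' s hs) fun e =>
        hst (mem_touch.2 ⟨hs, e⟩)
      have hc : Continuous fun τ : ℝ => mix τ (mb g h) (mb g h1) s.1 := by
        unfold mix; fun_prop
      have h0 : mix 0 (mb g h) (mb g h1) s.1 < s.2 := by
        rw [show mix 0 (mb g h) (mb g h1) s.1 = mb g h s.1 by simp [mix]]
        exact hlt
      have := (hc.tendsto 0).eventually (gt_mem_nhds h0)
      exact (this.filter_mono nhdsWithin_le_nhds).mono fun τ hτ _ => hτ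
  obtain ⟨τ, hτ, hτ0, hτ1⟩ := (hev.and (Ioo_mem_nhdsGT (zero_lt_one (α := ℝ)))).exists
  obtain ⟨m1, m2, -, m4⟩ := (mixS P).1 h h1 W.sub sub1 τ hτ0.le hτ1.le
  obtain ⟨m5, m6, -⟩ := m4 W.fits fit1
  have hS : S ⊆ touch P (mix τ h h1) := (Finset.subset_inter W.tch t1).trans m6
  refine ⟨mix τ h h1, ⟨W.card, m1, m5, ?_, hS, W.mem⟩, ?_⟩
  · rw [hmb]
    intro s hs
    by_cases hst : s ∈ touch Q (mb g h)
    · have h2 := H69.mb_mv H72.act g h1 (mv g⁻¹ s)
      rw [mv_inv] at h2
      have h3 := fit1 _ (hback s hst)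
      have h4 : mb g h1 s.1 ≤ s.2 := by linarith
      have h5 := (mem_touch.1 hst).2
      unfold mix
      nlinarith
    · exact (hτ s hs hst).le
  · rw [m2]
    nlinarith

/-- the matched body `h'` of `Q` touching `S1`, moved back -/
theorem claim_back {P Q : Finset HP} {g : Iso2} {S : Finset HP} {h : ℂ → ℝ}
    (W : WP P Q g S h) {h' : ℂ → ℝ} (sub' : Sublin h') (M : Mat Q P g⁻¹ h')
    (t' : S.image (mv g) ⊆ touch Q h') : WP P Q g S (mb g⁻¹ h') := by
  refine ⟨W.card, sub_mb _ sub', M.fits', by rw [mb_inv]; exact M.fits, ?_, W.mem⟩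
  intro s hs
  have h1 : mv g s ∈ touch Q h' := t' (Finset.mem_image_of_mem _ hs)
  have h2 := touch_mv (g := g⁻¹) h1 (by rw [mv_inv']; exact (mem_touch.1 (W.tch hs)).1)
  rwa [mv_inv'] at h2

/-- the claim: the triple `S` is touched by a short body placed by `g` -/
theorem claim (hvxx : VxxStatement) (hunx : UnxStatement) (hk4x : K4xStatement)
    (hslx : SlxStatement) (hcqx : CqxStatement) {P Q : Finset HP} {L : ℝ} (H : Hyp P Q L)
    (gx : GenX P) (pq : Pg Q) (E : Env P Q L) {g : Iso2} {S : Finset HP} {h : ℂ → ℝ}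
    (W : WP P Q g S h) (hl : lam h = L) (hlt : Lt P S L) : ∃ m, WP P Q g S m ∧ lam m < L := by
  obtain ⟨h1, sub1, fit1, t1, l1⟩ := hlt
  by_cases hback : ∀ s ∈ touch Q (mb g h), mv g⁻¹ s ∈ P
  · exact claim_mix W hl.le sub1 fit1 t1 l1 hback
  have subk : Sublin (mb g h) := sub_mb g W.sub
  have lk : lam (mb g h) = L := by rw [lam_mb g W.sub]; exact hl
  have him : S.image (mv g) ⊆ touch Q (mb g h) := by
    intro s hs
    obtain ⟨t, ht, rfl⟩ := Finset.mem_image.1 hs
    exact touch_mv (W.tch ht) (W.mem t ht)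
  have hc : (S.image (mv g)).card = 3 := by rw [card_image_mv, W.card]
  have hbackS : ∀ s ∈ S.image (mv g), mv g⁻¹ s ∈ P := by
    intro s hs
    obtain ⟨t, ht, rfl⟩ := Finset.mem_image.1 hs
    rw [mv_inv']
    exact (mem_touch.1 (W.tch ht)).1
  have himQ : S.image (mv g) ⊆ Q := fun s hs => (mem_touch.1 (him hs)).1
  have h4 : 4 ≤ (touch Q (mb g h)).card := by
    by_contra h4
    have h3 : S.image (mv g) = touch Q (mb g h) :=
      Finset.eq_of_subset_of_card_le him (by omega)
    exact hback fun s hs => hbackS s (by rw [h3]; exact hs)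
  have hsp : Special Q (mb g h) := ⟨subk, W.fits', by omega, Or.inr h4⟩
  have hX := pq.unit
  have G1P := gx.gen.g1
  have pP := gx.gen.pg
  have U := fun g g' => (hunx.2 Q P hX pP G1P g g')
  by_cases hun : Unl Q P (mb g h)
  · obtain ⟨i, j, k, l, v, w, g1, g2, T, ht⟩ := hcqx P Q L H gx pq _ hun lk h4
    obtain ⟨nij, nik, nil, njk, njl, nkl⟩ := T.sh.ne
    have iQ := T.sh.vi.mem₁
    have jQ := T.sh.vi.mem₂
    have kQ := T.sh.wk.mem₁
    have lQ := T.sh.wk.mem₂
    have K4 := hk4x Q P hX pP G1P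
    -- the missing side
    have hex : ∃ x ∈ ({i, j, k, l} : Finset HP), S.image (mv g) = ({i, j, k, l} : Finset HP).erase x := by
      have hlt : (S.image (mv g)).card < ({i, j, k, l} : Finset HP).card := by rw [← ht]; omega
      have hss : S.image (mv g) ⊆ ({i, j, k, l} : Finset HP) := by rw [← ht]; exact him
      obtain ⟨x, hx, hx'⟩ := Finset.exists_mem_notMem_of_card_lt_card hlt
      refine ⟨x, hx, Finset.eq_of_subset_of_card_le (fun s hs => Finset.mem_erase.2
        ⟨fun e => hx' (e ▸ hs), hss hs⟩) ?_⟩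
      rw [Finset.card_erase_of_mem hx]
      have : ({i, j, k, l} : Finset HP).card ≤ 4 := Finset.card_le_four
      omega
    obtain ⟨x, hx, hSx⟩ := hex
    have memS : ∀ y ∈ ({i, j, k, l} : Finset HP), y ≠ x → y ∈ S.image (mv g) := by
      intro y hy hyx
      rw [hSx]
      exact Finset.mem_erase.2 ⟨hyx, hy⟩
    have hbk : ∀ y ∈ ({i, j, k, l} : Finset HP), y ≠ x → mv g⁻¹ y ∈ P := fun y hy hyx =>
      hbackS y (memS y hy hyx)
    simp only [Finset.mem_insert, Finset.mem_singleton] at hx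
    rcases hx with rfl | rfl | rfl | rfl
    · -- `S1 = {j, k, l}`
      exfalso
      have := (K4 g1 g2 g⁻¹ k x j l kQ iQ jQ lQ ⟨nik.symm, njk.symm, nkl, nij, nil, njl⟩
        T.k1 T.i1 T.j1 T.k2 T.i2 T.l2 (hbk k (by simp) nik.symm) (hbk j (by simp) nij.symm)
        (hbk l (by simp) nil.symm)).1
      exact T.gne this
    · -- `S1 = {i, k, l}`
      have e2 : g2 = g⁻¹ := (U g2 g⁻¹).2 (S.image (mv g)) himQ hc.ge (by
        intro s hs
        rw [hSx] at hs
        simp only [Finset.mem_erase, Finset.mem_insert, Finset.mem_singleton] at hs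
        rcases hs with ⟨hs1, rfl | rfl | rfl | rfl⟩
        · exact T.i2
        · exact absurd rfl hs1
        · exact T.k2
        · exact T.l2) hbackS
      obtain ⟨h', s', -, t', l'⟩ := slide hvxx hslx pq T.sh.vi T.sh.wk T.sh.ne T.ai
      have hlen := (sh3_data hvxx pq T.sh).2.2.2.2.2
      have l'' : lam h' < L := by rw [← lk, hlen]; exact l'
      obtain ⟨g3, hg3⟩ := E.all' h' s' l''
      have hS' : S.image (mv g) ⊆ touch Q h' := by
        intro s hs
        rw [hSx] at hs
        simp only [Finset.mem_erase, Finset.mem_insert, Finset.mem_singleton] at hs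
        apply t'
        simp only [Finset.mem_insert, Finset.mem_singleton]
        tauto
      have e3 : g3 = g⁻¹ := (U g3 g⁻¹).2 (S.image (mv g)) himQ hc.ge
        (fun s hs => hg3.mem s (hS' hs)) hbackS
      rw [e3] at hg3
      exact ⟨_, claim_back W s'.sub hg3 hS', by rw [lam_mb _ s'.sub]; exact l''⟩
    · -- `S1 = {i, j, l}`
      exfalso
      have K := K4 g1 g⁻¹ g2 i j x l iQ jQ kQ lQ ⟨nij, nik, nil, njk, njl, nkl⟩
        T.i1 T.j1 T.k1 (hbk i (by simp) nik) (hbk j (by simp) njk)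
        (hbk l (by simp) nkl.symm) T.i2 T.k2 T.l2
      exact T.gne K.2
    · -- `S1 = {i, j, k}`
      have e1 : g1 = g⁻¹ := (U g1 g⁻¹).2 (S.image (mv g)) himQ hc.ge (by
        intro s hs
        rw [hSx] at hs
        simp only [Finset.mem_erase, Finset.mem_insert, Finset.mem_singleton] at hs
        rcases hs with ⟨hs1, rfl | rfl | rfl | rfl⟩
        · exact T.i1
        · exact T.j1
        · exact T.k1
        · exact absurd rfl hs1) hbackS
      obtain ⟨h', s', -, t', l'⟩ := slide hvxx hslx pq T.sh.wk T.sh.vi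
        ⟨nkl, nik.symm, njk.symm, nil.symm, njl.symm, nij⟩ T.ak
      have hlen := (sh3_data hvxx pq T.sh).2.2.2.2.2
      have l'' : lam h' < L := by rw [← lk, hlen, norm_sub_rev]; exact l'
      obtain ⟨g3, hg3⟩ := E.all' h' s' l''
      have hS' : S.image (mv g) ⊆ touch Q h' := by
        intro s hs
        rw [hSx] at hs
        simp only [Finset.mem_erase, Finset.mem_insert, Finset.mem_singleton] at hs
        apply t'
        simp only [Finset.mem_insert, Finset.mem_singleton]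
        tauto
      have e3 : g3 = g⁻¹ := (U g3 g⁻¹).2 (S.image (mv g)) himQ hc.ge
        (fun s hs => hg3.mem s (hS' hs)) hbackS
      rw [e3] at hg3
      exact ⟨_, claim_back W s'.sub hg3 hS', by rw [lam_mb _ s'.sub]; exact l''⟩
  · exfalso
    have : ∃ g2, Fits P (mb g2 (mb g h)) ∧ ∀ s ∈ touch Q (mb g h), mv g2 s ∈ P := by
      by_contra hn
      exact hun ⟨hsp, hn⟩
    obtain ⟨g2, -, hg2⟩ := this
    have e2 : g2 = g⁻¹ := (U g2 g⁻¹).2 (S.image (mv g)) himQ hc.ge
      (fun s hs => hg2 s (him hs)) hbackS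
    rw [e2] at hg2
    exact hback hg2

end Pool.Agent.XQ.H33

namespace Pool.Agent.XQ

open Pool.Agent.AEU

/-- module UQL -/
theorem uql (hevr : EvrStatement) (hvxx : VxxStatement) (hunx : UnxStatement)
    (hk4x : K4xStatement) (hlxx : LxxStatement) (hslx : SlxStatement) (hcqx : CqxStatement) :
    UqlStatement := by
  intro P Q L H gx pq g g' S h W W' hl hlt
  have E := hevr P Q L gx.gen.pg gx.gen.g1 pq H
  rcases hl.lt_or_eq with hl | hl
  · exact H.uq g g' S h W W' hl
  obtain ⟨m, Wm, lm⟩ := H33.claim hvxx hunx hk4x hslx hcqx H gx pq E W hl hlt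
  obtain ⟨m', Wm', lm'⟩ := H33.claim hvxx hunx hk4x hslx hcqx H gx pq E W' hl hlt
  have M' := H33.wpm E Wm' lm'
  have M := (hlxx P Q L E S g' m' m W.card Wm'.tch Wm.tch Wm'.sub Wm.sub M' Wm.fits lm').1 lm
  exact H.uq g g' S m Wm ⟨W.card, Wm.sub, Wm.fits, M.fits', Wm.tch, W'.mem⟩ lm

end Pool.Agent.XQ
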